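import Pool.Agent.Helper599_WA.Main

/-!
# Chains through families of sets of size `κ`, and Aronszajn subtrees
-/

universe u

open Cardinal Set

namespace Pool.Agent.Helper599

/-- `N` is a *`κ⁺`-Aronszajn subtree* of `T`: a downward closed subset of `T` which, with the
induced order, is a tree of height `κ⁺` all of whose levels have at most `κ` elements, and which has
no branch of order type `κ⁺`. -/
def IsAronszajnSubtree (κ : Cardinal.{u}) {T : Type u} [PartialOrder T] (N : Set T) : Prop :=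
  (∀ s t : T, s ≤ t → t ∈ N → s ∈ N) ∧ IsTree N ∧ HasTreeHeight N (Order.succ κ).ord ∧
    (∀ α : Ordinal.{u}, #{t : N // HasHeight t α} ≤ κ) ∧
    ∀ B : Set N, IsChain (· ≤ ·) B → ¬ Nonempty (B ≃o (Order.succ κ).ord.ToType)

section sub

variable {T : Type u} [PartialOrder T]

theorem TreeLike.subtype (hT : TreeLike T) (N : Set T) : TreeLike N where
  wf := by
    have h1 : StrictMono (fun t : N => t.1) := fun a b h => h
    haveI := hT.wf
    exact h1.wellFoundedLT
  comp t a b ha hb := hT.comp t.1 a.1 b.1 ha hb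

theorem hasHeight_sub {N : Set T} (hN : ∀ s t : T, s ≤ t → t ∈ N → s ∈ N) (t : N)
    (α : Ordinal.{u}) : HasHeight t α ↔ HasHeight t.1 α := by
  let e : Set.Iio t ≃o Set.Iio t.1 :=
    { toFun := fun s => ⟨s.1.1, s.2⟩
      invFun := fun s => ⟨⟨s.1, hN _ _ (le_of_lt s.2) t.2⟩, s.2⟩
      left_inv := fun s => rfl
      right_inv := fun s => rfl
      map_rel_iff' := Iff.rfl }
  constructor
  · rintro ⟨f⟩
    exact ⟨e.symm.trans f⟩
  · rintro ⟨f⟩
    exact ⟨e.trans f⟩

theorem typein_le_rk (hT : TreeLike T) {L : Type u} [LinearOrder L] [WellFoundedLT L] {γ : L}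
    (φ : L → T) (hφ : ∀ y y', y < y' → y' < γ → φ y < φ y') (y : L) (hy : y < γ) :
    Ordinal.typein (α := L) (· < ·) y ≤ rk hT (φ y) := by
  induction y using (wellFounded_lt (α := L)).induction with
  | _ y ih =>
    by_contra hc
    rw [not_le] at hc
    obtain ⟨z, hz⟩ := Ordinal.typein_surj (α := L) (· < ·)
      (hc.trans (Ordinal.typein_lt_type _ y))
    rw [← hz] at hc
    have hzy : z < y := (Ordinal.typein_lt_typein (α := L) (· < ·)).mp hc
    have h5 := ih z hzy (hzy.trans hy)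
    have h6 : rk hT (φ z) < rk hT (φ y) := rk_lt hT (hφ _ _ hzy hy)
    rw [← hz] at h6
    exact absurd h5 (not_le.mpr h6)

end sub

section aron

variable {κ : Cardinal.{u}} {T : Type u} [PartialOrder T]

/-- chains of all lengths `< κ⁺` through a fixed family of sets of size `≤ κ` give an Aronszajn
subtree -/
theorem exAronszajn (hκ : ℵ₀ ≤ κ) (hT : IsTree T) (hno : ¬ ∃ h : Lam κ → T, StrictMono h)
    (B : Lam κ → Set T) (hB : ∀ j, #(B j) ≤ κ) (g : Lam κ → Lam κ → T)
    (hg : ∀ i j j', j < j' → j' < i → g i j < g i j') (hgB : ∀ i j, j < i → g i j ∈ B j) :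
    ∃ N : Set T, IsAronszajnSubtree κ N := by
  classical
  have H := lam_succLike hκ
  have hTL := hT.treeLike
  have hlt := rk_lt_type (L := Lam κ) hTL hno
  let N : Set T := {t | ∃ i j, j < i ∧ t ≤ g i j}
  have hN : ∀ s t : T, s ≤ t → t ∈ N → s ∈ N := by
    rintro s t hst ⟨i, j, hj, ht⟩
    exact ⟨i, j, hj, hst.trans ht⟩
  have hNL := hTL.subtype N
  have hrk : ∀ (t : N) (α : Ordinal.{u}), HasHeight t α → rk hTL t.1 = α := fun t α h =>
    (((hasHeight_sub hN t α).mp h).eq_rk hTL).symm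
  have hrk' : ∀ (t : N), HasHeight t (rk hTL t.1) := fun t =>
    (hasHeight_sub hN t _).mpr (hasHeight_rk hTL t.1)
  refine ⟨N, hN, hNL.isTree ?_, ⟨?_, ?_⟩, ?_, ?_⟩
  · obtain ⟨r, hr⟩ := hT.1
    let j0 : Lam κ := H.ne.some
    obtain ⟨i0, hi0⟩ := H.exGt j0
    exact ⟨⟨r, i0, j0, hi0, hr _⟩, fun t => hr t.1⟩
  · intro t ht
    have h1 := hrk t _ ht
    have h2 := hlt t.1
    rw [Ordinal.type_toType, h1] at h2
    exact lt_irrefl _ h2
  · intro α hα
    by_contra hcon
    rw [not_le] at hcon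
    let j : Lam κ := Ordinal.ToType.mk ⟨α, hcon⟩
    have h8 : Ordinal.typein (α := Lam κ) (· < ·) j = α :=
      congrArg Subtype.val (Ordinal.ToType.mk.symm_apply_apply
        (⟨α, hcon⟩ : Set.Iio (Order.succ κ).ord))
    obtain ⟨i, hi⟩ := H.exGt j
    have h9 := typein_le_rk hTL (g i) (fun y y' hy hy' => hg i y y' hy hy') j hi
    rw [h8] at h9
    rcases h9.eq_or_lt with h10 | h10
    · exact hα ⟨g i j, i, j, hi, le_rfl⟩ (by
        have := hrk' ⟨g i j, i, j, hi, le_rfl⟩
        rwa [← h10] at this)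
    · obtain ⟨s, hs, hso⟩ := rk_ex hTL _ _ h10
      exact hα ⟨s, i, j, hi, hs.le⟩ (by
        have := hrk' ⟨s, i, j, hi, hs.le⟩
        rwa [hso] at this)
  · intro α
    by_cases hα : α < (Order.succ κ).ord
    · let j0 : Lam κ := Ordinal.ToType.mk ⟨α, hα⟩
      have h8 : Ordinal.typein (α := Lam κ) (· < ·) j0 = α :=
        congrArg Subtype.val (Ordinal.ToType.mk.symm_apply_apply
          (⟨α, hα⟩ : Set.Iio (Order.succ κ).ord))
      have key : ∀ t : {t : N // HasHeight t α}, ∃ q : (Σ j : Set.Iic j0, B j.1),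
          t.1.1 ≤ (q.2 : T) := by
        rintro ⟨⟨t, i, j, hj, ht⟩, hα'⟩
        have h1 : rk hTL t = α := hrk _ _ hα'
        rcases le_or_gt j j0 with h2 | h2
        · exact ⟨⟨⟨j, h2⟩, ⟨g i j, hgB i j hj⟩⟩, ht⟩
        · refine ⟨⟨⟨j0, Set.mem_Iic.mpr le_rfl⟩, ⟨g i j0, hgB i j0 (h2.trans hj)⟩⟩, ?_⟩
          have h9 := typein_le_rk hTL (g i) (fun y y' hy hy' => hg i y y' hy hy') j0
            (h2.trans hj)
          rw [h8] at h9
          have h10 : g i j0 ≤ g i j := (hg i j0 j h2 hj).le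
          rcases hTL.comp (g i j) t (g i j0) ht h10 with h11 | h11
          · exact h11
          · have h12 := rk_le hTL h11
            rw [h1] at h12
            exact (rk_inj hTL ht h10 (h1.trans (le_antisymm h9 h12))).le
      choose q hq using key
      have hinj : Function.Injective q := by
        intro t t' htt
        have h1 : rk hTL t.1.1 = rk hTL t'.1.1 := (hrk _ _ t.2).trans (hrk _ _ t'.2).symm
        have h2 := hq t'
        rw [← htt] at h2
        exact Subtype.ext (Subtype.ext (rk_inj hTL (hq t) h2 h1))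
      have hIic : #(Set.Iic j0) ≤ κ := by
        obtain ⟨b, hb⟩ := H.exGt j0
        exact (mk_le_mk_of_subset (fun x hx => lt_of_le_of_lt hx hb)).trans (H.small b)
      calc #{t : N // HasHeight t α} ≤ #(Σ j : Set.Iic j0, B j.1) := mk_le_of_injective hinj
        _ = Cardinal.sum (fun j : Set.Iic j0 => #(B j.1)) := mk_sigma _
        _ ≤ Cardinal.sum (fun _ : Set.Iic j0 => κ) := Cardinal.sum_le_sum _ _ (fun j => hB _)
        _ = #(Set.Iic j0) * κ := by simp
        _ ≤ κ * κ := by gcongr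
        _ = κ := Cardinal.mul_eq_self hκ
    · have hemp : IsEmpty {t : N // HasHeight t α} := by
        refine ⟨fun t => hα ?_⟩
        have h1 := hrk _ _ t.2
        have h2 := hlt t.1.1
        rwa [Ordinal.type_toType, h1] at h2
      rw [mk_eq_zero]
      exact zero_le
  · rintro C - ⟨e⟩
    refine hno ⟨fun i => (e.symm i).1.1, fun i j hij => ?_⟩
    exact e.symm.strictMono hij

theorem noNarrow_aron (hκ : ℵ₀ ≤ κ) (hT : IsTree T)
    (hno : ¬ ∃ h : Lam κ → T, StrictMono h) (hA : ¬ ∃ N : Set T, IsAronszajnSubtree κ N) :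
    NoNarrow (Lam κ) T (fun X => #X ≤ κ) := by
  intro J hJ B hB g hg hgB
  obtain ⟨e, he, heJ⟩ := exEnum (lam_succLike hκ) J hJ
  exact hA (exAronszajn hκ hT hno (fun j => B (e j)) (fun j => hB _)
    (fun i j => g (e i) (e j))
    (fun i j j' hj hj' => hg _ _ (heJ j) _ (heJ j') (he hj) (he hj'))
    (fun i j hji => hgB _ _ (heJ j) (he hji)))

end aron

end Pool.Agent.Helper599
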