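import Mathlib

/-!
# Wide Aronszajn trees: definitions (MP_d2308b_lc)
-/

universe u

open Cardinal

namespace Pool.Agent.Helper599

/-- A *tree*: a partial order with a least element in which the set of the predecessors of every
element is well-ordered. -/
def IsTree (T : Type u) [PartialOrder T] : Prop :=
  (∃ r : T, ∀ t : T, r ≤ t) ∧ ∀ t : T, IsWellOrder (Set.Iio t) (· < ·)

/-- The element `t` has *height* `α`: the set of its predecessors has order type `α`. -/
def HasHeight {T : Type u} [PartialOrder T] (t : T) (α : Ordinal.{u}) : Prop :=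
  Nonempty (Set.Iio t ≃o α.ToType)

/-- The tree `T` has height `β`: this is the least ordinal `α` such that the `α`-th level (the set
of the elements of height `α`) is empty. -/
def HasTreeHeight (T : Type u) [PartialOrder T] (β : Ordinal.{u}) : Prop :=
  IsLeast {α : Ordinal.{u} | ∀ t : T, ¬ HasHeight t α} β

/-- A *wide `μ`-Aronszajn tree*: a tree of height `μ` and cardinality `μ` without a branch (a
linearly ordered subset) of order type `μ`. -/
def IsWideAronszajn (μ : Cardinal.{u}) (T : Type u) [PartialOrder T] : Prop :=
  IsTree T ∧ HasTreeHeight T μ.ord ∧ #T = μ ∧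
    ∀ B : Set T, IsChain (· ≤ ·) B → ¬ Nonempty (B ≃o μ.ord.ToType)

/-- An *embedding* of trees: an injective map `f` such that `s < s'` implies `f s < f s'`. -/
def IsTreeEmbedding {S T : Type u} [PartialOrder S] [PartialOrder T] (f : S → T) : Prop :=
  Function.Injective f ∧ ∀ s s' : S, s < s' → f s < f s'

/-- A *maximal* (universal) wide `μ`-Aronszajn tree: every wide `μ`-Aronszajn tree admits an
embedding into it. -/
def IsMaximalWideAronszajn (μ : Cardinal.{u}) (T : Type u) [PartialOrder T] : Prop :=
  IsWideAronszajn μ T ∧ ∀ (S : Type u) [PartialOrder S], IsWideAronszajn μ S →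
    ∃ f : S → T, IsTreeEmbedding f

end Pool.Agent.Helper599
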