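import Pool.Agent.Helper599_WA.Main

/-!
# The general form of the diagonalisation by trees of histories
-/

universe u

open Cardinal Set

namespace Pool.Agent.Helper599

section gen

variable {κ : Cardinal.{u}} {L : Type u} [LinearOrder L] {X : Type u}
variable (hw : WellFoundedLT L) (l0 : L) (x0 : X) (ι : L × (L → X) → L)

/-- the `j`-th information in the history of `G` -/
noncomputable def gInf (G : L → X) (j : L) : X := G (cd hw l0 x0 ι G j)

/-- the pair: stage, and the history up to this stage -/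
noncomputable def gNd (G : L → X) (i : L) : L × (L → X) :=
  (dl hw l0 x0 ι G i, cut x0 G (dl hw l0 x0 ι G i))

/-- the tree of the consistent histories of members of `𝒢` -/
def GT (𝒢 : Set (L → X)) (R : L → (L → X) → Prop) : Type u :=
  {p : L × (L → X) // ∃ G ∈ 𝒢, ∃ i, p = gNd hw l0 x0 ι G i ∧ R i (gInf hw l0 x0 ι G)}

variable {hw l0 x0 ι} {𝒢 : Set (L → X)} {R : L → (L → X) → Prop}

theorem GT.self (p : GT hw l0 x0 ι 𝒢 R) : p.1.2 = cut x0 p.1.2 p.1.1 := by
  obtain ⟨G, -, i, hp, -⟩ := p.2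
  rw [hp]
  exact (cut_cut le_rfl).symm

instance GT.partialOrder : PartialOrder (GT hw l0 x0 ι 𝒢 R) where
  le p q := p.1.1 ≤ q.1.1 ∧ p.1.2 = cut x0 q.1.2 p.1.1
  le_refl p := ⟨le_rfl, p.self⟩
  le_trans p q r h h' := ⟨h.1.trans h'.1, by
    rw [h.2, h'.2, cut_cut h.1]⟩
  le_antisymm p q h h' := by
    have h1 : p.1.1 = q.1.1 := le_antisymm h.1 h'.1
    refine Subtype.ext (Prod.ext h1 ?_)
    rw [h.2, h1, ← q.self]

theorem GT.le_iff {p q : GT hw l0 x0 ι 𝒢 R} :
    p ≤ q ↔ p.1.1 ≤ q.1.1 ∧ p.1.2 = cut x0 q.1.2 p.1.1 := Iff.rfl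

theorem GT.lt_fst {p q : GT hw l0 x0 ι 𝒢 R} (h : p < q) : p.1.1 < q.1.1 := by
  have h1 := GT.le_iff.mp h.le
  rcases h1.1.eq_or_lt with h2 | h2
  · exfalso
    have e : p.1.2 = q.1.2 := by rw [h1.2, h2, ← q.self]
    refine not_le_of_gt h (GT.le_iff.mpr ⟨h2.ge, ?_⟩)
    rw [e]
    exact q.self
  · exact h2

theorem GT.lt_of {p q : GT hw l0 x0 ι 𝒢 R} (h : p.1.1 < q.1.1)
    (h' : p.1.2 = cut x0 q.1.2 p.1.1) : p < q := by
  refine lt_of_le_of_ne (GT.le_iff.mpr ⟨h.le, h'⟩) ?_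
  rintro rfl
  exact lt_irrefl _ h

theorem GT.treeLike : TreeLike (GT hw l0 x0 ι 𝒢 R) where
  wf := by
    have h1 : StrictMono (fun p : GT hw l0 x0 ι 𝒢 R => p.1.1) := fun p q h => GT.lt_fst h
    exact h1.wellFoundedLT
  comp t a b ha hb := by
    rw [GT.le_iff] at ha hb
    rcases le_total a.1.1 b.1.1 with h | h
    · left
      exact GT.le_iff.mpr ⟨h, by rw [hb.2, cut_cut h, ← ha.2]⟩
    · right
      exact GT.le_iff.mpr ⟨h, by rw [ha.2, cut_cut h, ← hb.2]⟩

/-- The tree of consistent histories has no chain of type `κ⁺` if there is no consistent sequence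
of length `κ⁺`. -/
theorem GT.noChain (H : SuccLike κ L)
    (hR1 : ∀ i (x y : L → X), (∀ j < i, x j = y j) → R i x → R i y)
    (hR2 : ∀ i i' (x : L → X), i ≤ i' → R i' x → R i x)
    (hR3 : ¬ ∃ x : L → X, ∀ i, R i x) :
    ¬ ∃ h : L → GT hw l0 x0 ι 𝒢 R, StrictMono h := by
  rintro ⟨h, hh⟩
  choose G hG k hk hW using fun i => (h i).2
  have hx : ∀ i, (h i).1.1 = dl hw l0 x0 ι (G i) (k i) := fun i => by rw [hk i]; rfl
  have hx2 : ∀ i, (h i).1.2 = cut x0 (G i) (h i).1.1 := fun i => by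
    rw [hk i]; rfl
  have agree : ∀ i i', i < i' → ∀ a < dl hw l0 x0 ι (G i) (k i), G i a = G i' a := by
    intro i i' hii
    have h1 := GT.le_iff.mp (hh hii).le
    have h2 : cut x0 (G i) (h i).1.1 = cut x0 (G i') (h i).1.1 := by
      rw [← hx2 i, h1.2, hx2 i', cut_cut h1.1]
    have h3 := of_cut_eq h2
    rwa [hx i] at h3
  have hkm : StrictMono k := by
    intro i i' hii
    have h1 := dl_dep (hw := hw) (l0 := l0) (v0 := x0) (ι := ι) H (G i) (G i') (k i)
      (agree i i' hii) (k i) le_rfl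
    have h2 : dl hw l0 x0 ι (G i') (k i) < dl hw l0 x0 ι (G i') (k i') := by
      rw [h1, ← hx i, ← hx i']
      exact GT.lt_fst (hh hii)
    exact (dl_mono H (G i')).lt_iff_lt.mp h2
  have hki : ∀ i, i ≤ k i := le_of_strictMono H.wf k hkm
  have same : ∀ j i i', j < i → j < i' → gInf hw l0 x0 ι (G i) j = gInf hw l0 x0 ι (G i') j := by
    have main : ∀ j i i', j < i → i < i' →
        gInf hw l0 x0 ι (G i) j = gInf hw l0 x0 ι (G i') j := by
      intro j i i' h1 h2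
      have h3 := cd_dep (hw := hw) (l0 := l0) (v0 := x0) (ι := ι) H (G i) (G i') (k i)
        (agree i i' h2) (lt_of_lt_of_le h1 (hki i))
      unfold gInf
      rw [h3.2, h3.1]
    intro j i i' h1 h2
    rcases lt_trichotomy i i' with h3 | h3 | h3
    · exact main j i i' h1 h3
    · rw [h3]
    · exact (main j i' i h2 h3).symm
  choose nx hnx using H.exGt
  refine hR3 ⟨fun j => gInf hw l0 x0 ι (G (nx j)) j, fun i => ?_⟩
  exact hR1 i _ _ (fun j hj => same j i (nx j) hj (hnx j)) (hR2 i (k i) _ (hki i) (hW i))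

/-- No member of `𝒢` is consistent along all increasing sequences of the tree. -/
theorem GT.notConsistent (H : SuccLike κ L)
    (hR1 : ∀ i (x y : L → X), (∀ j < i, x j = y j) → R i x → R i y)
    (hR2 : ∀ i i' (x : L → X), i ≤ i' → R i' x → R i x)
    (hR3 : ¬ ∃ x : L → X, ∀ i, R i x) (hR0 : ∀ i x, (∀ j, ¬ j < i) → R i x)
    (G : L → X) (hG : G ∈ 𝒢) :
    ¬ ∀ (i : L) (P : L → GT hw l0 x0 ι 𝒢 R), (∀ j k, j < k → k < i → P j < P k) →
      R i (fun j => G (ι (P j).1)) := by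
  classical
  intro hcon
  have hW : ∀ i, R i (gInf hw l0 x0 ι G) := by
    intro i
    induction i using H.wf.wf.induction with
    | _ i ih =>
      by_cases hne : ∃ j, j < i
      · obtain ⟨j0, hj0⟩ := hne
        let P' : ∀ j, j < i → GT hw l0 x0 ι 𝒢 R := fun j hj =>
          ⟨gNd hw l0 x0 ι G j, G, hG, j, rfl, ih j hj⟩
        let P : L → GT hw l0 x0 ι 𝒢 R := fun j => if hj : j < i then P' j hj else P' j0 hj0
        have hlt : ∀ j k, j < k → k < i → P j < P k := by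
          intro j k hjk hk
          have h3 : dl hw l0 x0 ι G j < dl hw l0 x0 ι G k := dl_lt H G hjk
          simp only [P, dif_pos hk, dif_pos (hjk.trans hk)]
          exact GT.lt_of h3 (cut_cut h3.le).symm
        refine hR1 i _ _ (fun j hj => ?_) (hcon i P hlt)
        simp only [P, dif_pos hj]
        rfl
      · exact hR0 i _ (fun j hj => hne ⟨j, hj⟩)
  refine GT.noChain (hw := hw) (l0 := l0) (x0 := x0) (ι := ι) (𝒢 := 𝒢) H hR1 hR2 hR3
    ⟨fun i => ⟨gNd hw l0 x0 ι G i, G, hG, i, rfl, hW i⟩, fun i j hij => ?_⟩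
  have h3 : dl hw l0 x0 ι G i < dl hw l0 x0 ι G j := dl_lt H G hij
  exact GT.lt_of h3 (cut_cut h3.le).symm

/-- The set of all possible nodes. -/
def gNodes (x0 : X) (𝒢 : Set (L → X)) : Set (L × (L → X)) :=
  {p | ∃ G ∈ 𝒢, p.2 = cut x0 G p.1}

theorem GT.mem_nodes (p : GT hw l0 x0 ι 𝒢 R) : p.1 ∈ gNodes x0 𝒢 := by
  obtain ⟨G, hG, i, hp, -⟩ := p.2
  exact ⟨G, hG, by rw [hp]; rfl⟩

theorem card_gNodes (hκ : ℵ₀ ≤ κ) (hL : #L ≤ Order.succ κ) (𝒢 : Set (L → X))
    (hfew : ∀ δ : L, #((fun (G : L → X) (a : Set.Iio δ) => G a) '' 𝒢) ≤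
      Order.succ κ) : #(gNodes x0 𝒢) ≤ Order.succ κ := by
  classical
  have hinf : ℵ₀ ≤ Order.succ κ := hκ.trans (Order.le_succ κ)
  let Rr : L → Type u := fun δ => ((fun (G : L → X) (a : Set.Iio δ) => G a) '' 𝒢 : Set _)
  let F : (Σ δ : L, Rr δ) → L × (L → X) := fun q =>
    (q.1, fun a => if h : a < q.1 then q.2.1 ⟨a, h⟩ else x0)
  have h1 : gNodes x0 𝒢 ⊆ Set.range F := by
    rintro ⟨δ, f⟩ ⟨G, hG, hf⟩
    refine ⟨⟨δ, ⟨fun a : Set.Iio δ => G a, G, hG, rfl⟩⟩, ?_⟩
    refine Prod.ext rfl ?_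
    have hf' : f = cut x0 G δ := hf
    rw [hf']
    funext a
    by_cases ha : a < δ
    · simp [F, cut, ha]
    · simp [F, cut, ha]
  calc #(gNodes x0 𝒢) ≤ #(Set.range F) := mk_le_mk_of_subset h1
    _ ≤ #(Σ δ : L, Rr δ) := mk_range_le
    _ = Cardinal.sum (fun δ : L => #(Rr δ)) := mk_sigma _
    _ ≤ Cardinal.sum (fun _ : L => Order.succ κ) := Cardinal.sum_le_sum _ _ hfew
    _ = #L * Order.succ κ := by simp
    _ ≤ Order.succ κ * Order.succ κ := by gcongr
    _ = Order.succ κ := Cardinal.mul_eq_self hinf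

end gen

section main

variable {κ : Cardinal.{u}}

/-- The general diagonalisation: for a notion `R` of consistency of sequences of length `< κ⁺`
which is not satisfied by any sequence of length `κ⁺`, and a family `𝒢` with at most `κ⁺`
restrictions to every proper initial segment, there is a wide `κ⁺`-Aronszajn tree such that no
member of `𝒢` is consistent along all increasing sequences of the tree. -/
theorem exists_general (hκ : ℵ₀ ≤ κ) (X : Type u) (x0 : X)
    (R : Lam κ → (Lam κ → X) → Prop)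
    (hR0 : ∀ i x, (∀ j, ¬ j < i) → R i x)
    (hR1 : ∀ i (x y : Lam κ → X), (∀ j < i, x j = y j) → R i x → R i y)
    (hR2 : ∀ i i' (x : Lam κ → X), i ≤ i' → R i' x → R i x)
    (hR3 : ¬ ∃ x : Lam κ → X, ∀ i, R i x)
    (𝒢 : Set (Lam κ → X))
    (hfew : ∀ δ : Lam κ, #((fun (G : Lam κ → X) (a : Set.Iio δ) => G a) '' 𝒢) ≤
      Order.succ κ) :
    ∃ (S : Type u) (_ : PartialOrder S) (c : S → Lam κ), IsWideAronszajn (Order.succ κ) S ∧
      Function.Injective c ∧ ∀ G ∈ 𝒢, ¬ ∀ (i : Lam κ) (P : Lam κ → S),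
        (∀ j k, j < k → k < i → P j < P k) → R i (fun j => G (c (P j))) := by
  classical
  have H := lam_succLike hκ
  have hinf : ℵ₀ ≤ Order.succ κ := hκ.trans (Order.le_succ κ)
  have hN := card_gNodes (x0 := x0) hκ (mk_lam κ).le 𝒢 hfew
  have h2 : #(Lam κ ⊕ Lam κ) ≤ #(Lam κ) := by
    rw [mk_sum]
    simp only [lift_id]
    rw [mk_lam]
    exact (Cardinal.add_eq_self hinf).le
  obtain ⟨j⟩ : Nonempty (Lam κ ⊕ Lam κ ↪ Lam κ) := h2
  obtain ⟨i0⟩ : Nonempty (gNodes x0 𝒢 ↪ Lam κ) := hN.trans (mk_lam κ).ge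
  let l0 : Lam κ := H.ne.some
  let ι : Lam κ × (Lam κ → X) → Lam κ := fun p =>
    if h : p ∈ gNodes x0 𝒢 then j (Sum.inl (i0 ⟨p, h⟩)) else l0
  let S := GT (H.wf) l0 x0 ι 𝒢 R
  have hS : TreeLike S := GT.treeLike
  have hSno : ¬ ∃ h : Lam κ → S, StrictMono h := GT.noChain H hR1 hR2 hR3
  have hιinj : Function.Injective (fun p : S => ι p.1) := by
    intro p q hpq
    have h3 : j (Sum.inl (i0 ⟨p.1, p.mem_nodes⟩)) = j (Sum.inl (i0 ⟨q.1, q.mem_nodes⟩)) := by
      have hp : ι p.1 = j (Sum.inl (i0 ⟨p.1, p.mem_nodes⟩)) := dif_pos p.mem_nodes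
      have hq : ι q.1 = j (Sum.inl (i0 ⟨q.1, q.mem_nodes⟩)) := dif_pos q.mem_nodes
      rw [← hp, ← hq]
      exact hpq
    have h4 := i0.injective (Sum.inl_injective (j.injective h3))
    have h5 : p.1 = q.1 := Subtype.mk.inj h4
    exact Subtype.ext h5
  have hScard : #S ≤ Order.succ κ := (mk_le_of_injective hιinj).trans (mk_lam κ).le
  have hW := pad_wide hκ hS hScard hSno
  obtain ⟨ρ⟩ : Nonempty (Pad κ S ↪ Lam κ) := (pad_card hκ hScard).le.trans (mk_lam κ).ge
  let c : Pad κ S → Lam κ := fun x =>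
    if h : ∃ s : S, x = padIn κ s then ι h.choose.1 else j (Sum.inr (ρ x))
  have hc1 : ∀ s : S, c (padIn κ s) = ι s.1 := by
    intro s
    have hex : ∃ s' : S, padIn κ s = padIn κ s' := ⟨s, rfl⟩
    have h3 : c (padIn κ s) = ι hex.choose.1 := dif_pos hex
    rw [h3, ← padIn_injective hex.choose_spec]
  have hι : ∀ s : S, ∃ y, ι s.1 = j (Sum.inl y) := fun s => ⟨_, dif_pos s.mem_nodes⟩
  refine ⟨Pad κ S, inferInstance, c, hW, ?_, ?_⟩
  · intro x y hxy
    by_cases hx : ∃ s : S, x = padIn κ s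
    · obtain ⟨s, rfl⟩ := hx
      rw [hc1 s] at hxy
      by_cases hy : ∃ s : S, y = padIn κ s
      · obtain ⟨s', rfl⟩ := hy
        rw [hc1 s'] at hxy
        rw [hιinj hxy]
      · obtain ⟨z, hz⟩ := hι s
        have h3 : c y = j (Sum.inr (ρ y)) := dif_neg hy
        rw [hz, h3] at hxy
        exact absurd (j.injective hxy) (by simp)
    · have h3 : c x = j (Sum.inr (ρ x)) := dif_neg hx
      rw [h3] at hxy
      by_cases hy : ∃ s : S, y = padIn κ s
      · obtain ⟨s', rfl⟩ := hy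
        obtain ⟨z, hz⟩ := hι s'
        rw [hc1 s', hz] at hxy
        exact absurd (j.injective hxy) (by simp)
      · have h4 : c y = j (Sum.inr (ρ y)) := dif_neg hy
        rw [h4] at hxy
        exact ρ.injective (Sum.inr_injective (j.injective hxy))
  · intro G hG hcon
    refine GT.notConsistent (hw := H.wf) (l0 := l0) (x0 := x0) (ι := ι) (𝒢 := 𝒢) (R := R)
      H hR1 hR2 hR3 hR0 G hG (fun i P hP => ?_)
    have h3 := hcon i (fun j => padIn κ (P j)) (fun j k hjk hk => padIn_lt (hP j k hjk hk))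
    refine hR1 i _ _ (fun j _ => ?_) h3
    rw [hc1 (P j)]

end main

end Pool.Agent.Helper599
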