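import Pool.Agent.Helper599_WA.Tree

/-!
# The tree of coarse histories
-/

universe u

open Cardinal Set

namespace Pool.Agent.Helper599

section hist

variable {κ : Cardinal.{u}} {L : Type u} [LinearOrder L] {V : Type u}

open Classical in
/-- `G` below `δ`, and the constant value `v0` from `δ` on. -/
noncomputable def cut (v0 : V) (G : L → V) (δ : L) : L → V := fun a => if a < δ then G a else v0

theorem cut_lt {v0 : V} {G : L → V} {δ a : L} (h : a < δ) : cut v0 G δ a = G a := if_pos h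

theorem cut_cut {v0 : V} {G : L → V} {δ δ' : L} (h : δ ≤ δ') :
    cut v0 (cut v0 G δ') δ = cut v0 G δ := by
  funext a
  by_cases ha : a < δ
  · rw [cut_lt ha, cut_lt ha, cut_lt (lt_of_lt_of_le ha h)]
  · simp [cut, if_neg ha]

theorem cut_congr {v0 : V} {G G' : L → V} {δ : L} (h : ∀ a < δ, G a = G' a) :
    cut v0 G δ = cut v0 G' δ := by
  funext a
  by_cases ha : a < δ
  · rw [cut_lt ha, cut_lt ha, h a ha]
  · simp [cut, if_neg ha]

theorem of_cut_eq {v0 : V} {G G' : L → V} {δ : L} (h : cut v0 G δ = cut v0 G' δ) :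
    ∀ a < δ, G a = G' a := by
  intro a ha
  have := congrFun h a
  rwa [cut_lt ha, cut_lt ha] at this

open Classical in
/-- the least strict upper bound of a set, if there is one -/
noncomputable def sb (hw : WellFoundedLT L) (l0 : L) (X : Set L) : L :=
  if h : ∃ b, ∀ x ∈ X, x < b then hw.wf.min {b | ∀ x ∈ X, x < b} h else l0

theorem sb_spec {hw : WellFoundedLT L} {l0 : L} {X : Set L} (h : ∃ b, ∀ x ∈ X, x < b) :
    ∀ x ∈ X, x < sb hw l0 X := by
  have h1 : sb hw l0 X = hw.wf.min {b | ∀ x ∈ X, x < b} h := dif_pos h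
  rw [h1]
  exact hw.wf.min_mem {b | ∀ x ∈ X, x < b} h

variable (hw : WellFoundedLT L) (l0 : L) (v0 : V) (ι : L × (L → V) → L)

/-- the stages of the history of `G` -/
noncomputable def dl (G : L → V) : L → L :=
  hw.wf.fix (fun i r => sb hw l0
    {x | ∃ (j : L) (hj : j < i), x = r j hj ∨ x = ι (r j hj, cut v0 G (r j hj))})

/-- the places where the history of `G` is asked -/
noncomputable def cd (G : L → V) (j : L) : L :=
  ι (dl hw l0 v0 ι G j, cut v0 G (dl hw l0 v0 ι G j))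

theorem dl_eq (G : L → V) (i : L) : dl hw l0 v0 ι G i =
    sb hw l0 {x | ∃ j < i, x = dl hw l0 v0 ι G j ∨ x = cd hw l0 v0 ι G j} := by
  have h1 := WellFounded.fix_eq hw.wf (fun i (r : ∀ j, j < i → L) => sb hw l0
    {x | ∃ (j : L) (hj : j < i), x = r j hj ∨ x = ι (r j hj, cut v0 G (r j hj))}) i
  change dl hw l0 v0 ι G i = _ at h1
  rw [h1]
  congr 1
  ext x
  simp only [Set.mem_ofPred_eq]
  constructor
  · rintro ⟨j, hj, h⟩
    exact ⟨j, hj, h⟩
  · rintro ⟨j, hj, h⟩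
    exact ⟨j, hj, h⟩

variable {hw l0 v0 ι}

theorem dl_bdd (H : SuccLike κ L) (G : L → V) (i : L) :
    ∃ b, ∀ x ∈ {x | ∃ j < i, x = dl hw l0 v0 ι G j ∨ x = cd hw l0 v0 ι G j}, x < b := by
  obtain ⟨b1, hb1⟩ := H.bddR (H.small i) (fun j : Set.Iio i => dl hw l0 v0 ι G j.1)
  obtain ⟨b2, hb2⟩ := H.bddR (H.small i) (fun j : Set.Iio i => cd hw l0 v0 ι G j.1)
  refine ⟨max b1 b2, ?_⟩
  rintro x ⟨j, hj, rfl | rfl⟩
  · exact lt_of_lt_of_le (hb1 ⟨j, hj⟩) (le_max_left _ _)
  · exact lt_of_lt_of_le (hb2 ⟨j, hj⟩) (le_max_right _ _)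

theorem dl_lt (H : SuccLike κ L) (G : L → V) {j i : L} (h : j < i) :
    dl hw l0 v0 ι G j < dl hw l0 v0 ι G i := by
  rw [dl_eq hw l0 v0 ι G i]
  exact sb_spec (dl_bdd H G i) _ ⟨j, h, Or.inl rfl⟩

theorem cd_lt (H : SuccLike κ L) (G : L → V) {j i : L} (h : j < i) :
    cd hw l0 v0 ι G j < dl hw l0 v0 ι G i := by
  rw [dl_eq hw l0 v0 ι G i]
  exact sb_spec (dl_bdd H G i) _ ⟨j, h, Or.inr rfl⟩

theorem dl_mono (H : SuccLike κ L) (G : L → V) : StrictMono (dl hw l0 v0 ι G) :=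
  fun _ _ h => dl_lt H G h

/-- The stages up to `i` depend only on `G` below the `i`-th stage. -/
theorem dl_dep (H : SuccLike κ L) (G G' : L → V) (i : L)
    (h : ∀ a < dl hw l0 v0 ι G i, G a = G' a) :
    ∀ j ≤ i, dl hw l0 v0 ι G' j = dl hw l0 v0 ι G j := by
  intro j
  induction j using hw.wf.induction with
  | _ j ih =>
    intro hj
    have h1 : ∀ k < j, dl hw l0 v0 ι G' k = dl hw l0 v0 ι G k ∧
        cd hw l0 v0 ι G' k = cd hw l0 v0 ι G k := by
      intro k hk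
      have h2 := ih k hk (hk.le.trans hj)
      refine ⟨h2, ?_⟩
      unfold cd
      rw [h2]
      congr 2
      refine cut_congr (fun a ha => (h a ?_).symm)
      exact lt_trans ha (dl_lt H G (lt_of_lt_of_le hk hj))
    rw [dl_eq hw l0 v0 ι G' j, dl_eq hw l0 v0 ι G j]
    congr 1
    ext x
    simp only [Set.mem_ofPred_eq]
    constructor
    · rintro ⟨k, hk, hx⟩
      refine ⟨k, hk, ?_⟩
      rwa [(h1 k hk).1, (h1 k hk).2] at hx
    · rintro ⟨k, hk, hx⟩
      refine ⟨k, hk, ?_⟩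
      rwa [(h1 k hk).1, (h1 k hk).2]

theorem cd_dep (H : SuccLike κ L) (G G' : L → V) (i : L)
    (h : ∀ a < dl hw l0 v0 ι G i, G a = G' a) {j : L} (hj : j < i) :
    cd hw l0 v0 ι G' j = cd hw l0 v0 ι G j ∧
      G (cd hw l0 v0 ι G j) = G' (cd hw l0 v0 ι G j) := by
  refine ⟨?_, h _ (cd_lt H G hj)⟩
  have h2 := dl_dep H G G' i h j hj.le
  unfold cd
  rw [h2]
  congr 2
  exact cut_congr (fun a ha => (h a (lt_trans ha (dl_lt H G hj))).symm)

end hist

section tree

variable {κ : Cardinal.{u}} {L : Type u} [LinearOrder L] {I T : Type u} [PartialOrder T]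
variable (hw : WellFoundedLT L) (l0 : L) (ι : L × (L → (I → Set T)) → L)

/-- the empty information -/
def e0 (I T : Type u) : I → Set T := fun _ => ∅

/-- the `j`-th information in the history of `G` -/
noncomputable def inf (G : L → (I → Set T)) (j : L) : I → Set T := G (cd hw l0 (e0 I T) ι G j)

/-- the history of `G` up to `i` is compatible with a strictly increasing sequence in `T` for every
label, and at every stage there is a label with some information -/
def Wit (G : L → (I → Set T)) (i : L) : Prop :=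
  (∀ j < i, ∃ ξ, (inf hw l0 ι G j ξ).Nonempty) ∧
  ∃ g : I → L → T, (∀ ξ, ∀ j < i, (inf hw l0 ι G j ξ).Nonempty → g ξ j ∈ inf hw l0 ι G j ξ) ∧
    ∀ ξ j j', j < j' → j' < i → (inf hw l0 ι G j ξ).Nonempty → (inf hw l0 ι G j' ξ).Nonempty →
      g ξ j < g ξ j'

/-- the pair: stage, and the history up to this stage -/
noncomputable def nd (G : L → (I → Set T)) (i : L) : L × (L → (I → Set T)) :=
  (dl hw l0 (e0 I T) ι G i, cut (e0 I T) G (dl hw l0 (e0 I T) ι G i))

/-- the tree of the coarse histories of members of `𝒢` -/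
def HT (𝒢 : Set (L → (I → Set T))) : Type u :=
  {p : L × (L → (I → Set T)) // ∃ G ∈ 𝒢, ∃ i, p = nd hw l0 ι G i ∧ Wit hw l0 ι G i}

variable {hw l0 ι} {𝒢 : Set (L → (I → Set T))}

theorem HT.self (p : HT hw l0 ι 𝒢) : p.1.2 = cut (e0 I T) p.1.2 p.1.1 := by
  obtain ⟨G, -, i, hp, -⟩ := p.2
  rw [hp]
  exact (cut_cut le_rfl).symm

instance HT.partialOrder : PartialOrder (HT hw l0 ι 𝒢) where
  le p q := p.1.1 ≤ q.1.1 ∧ p.1.2 = cut (e0 I T) q.1.2 p.1.1
  le_refl p := ⟨le_rfl, p.self⟩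
  le_trans p q r h h' := ⟨h.1.trans h'.1, by
    rw [h.2, h'.2, cut_cut h.1]⟩
  le_antisymm p q h h' := by
    have h1 : p.1.1 = q.1.1 := le_antisymm h.1 h'.1
    refine Subtype.ext (Prod.ext h1 ?_)
    rw [h.2, h1, ← q.self]

theorem HT.le_iff {p q : HT hw l0 ι 𝒢} :
    p ≤ q ↔ p.1.1 ≤ q.1.1 ∧ p.1.2 = cut (e0 I T) q.1.2 p.1.1 := Iff.rfl

theorem HT.lt_fst {p q : HT hw l0 ι 𝒢} (h : p < q) : p.1.1 < q.1.1 := by
  have h1 := HT.le_iff.mp h.le
  rcases h1.1.eq_or_lt with h2 | h2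
  · exfalso
    have e : p.1.2 = q.1.2 := by rw [h1.2, h2, ← q.self]
    refine not_le_of_gt h (HT.le_iff.mpr ⟨h2.ge, ?_⟩)
    rw [e]
    exact q.self
  · exact h2

theorem HT.lt_of {p q : HT hw l0 ι 𝒢} (h : p.1.1 < q.1.1)
    (h' : p.1.2 = cut (e0 I T) q.1.2 p.1.1) : p < q := by
  refine lt_of_le_of_ne (HT.le_iff.mpr ⟨h.le, h'⟩) ?_
  rintro rfl
  exact lt_irrefl _ h

theorem HT.treeLike : TreeLike (HT hw l0 ι 𝒢) where
  wf := by
    have h1 : StrictMono (fun p : HT hw l0 ι 𝒢 => p.1.1) := fun p q h => HT.lt_fst h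
    exact h1.wellFoundedLT
  comp t a b ha hb := by
    rw [HT.le_iff] at ha hb
    rcases le_total a.1.1 b.1.1 with h | h
    · left
      exact HT.le_iff.mpr ⟨h, by rw [hb.2, cut_cut h, ← ha.2]⟩
    · right
      exact HT.le_iff.mpr ⟨h, by rw [ha.2, cut_cut h, ← hb.2]⟩

/-- There are no chains of all lengths smaller than `κ⁺` (on an unbounded set of places) through
a fixed family of small sets. -/
def NoNarrow (L : Type u) [LinearOrder L] (T : Type u) [PartialOrder T] (Small : Set T → Prop) :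
    Prop :=
  ∀ (J : Set L) (_ : ∀ b, ∃ i ∈ J, b < i) (B : L → Set T) (_ : ∀ j, Small (B j)) (g : L → L → T)
    (_ : ∀ i, ∀ j ∈ J, ∀ j' ∈ J, j < j' → j' < i → g i j < g i j')
    (_ : ∀ i, ∀ j ∈ J, j < i → g i j ∈ B j), False

theorem noNarrow_card (H : SuccLike κ L) (hT : TreeLike T) (hno : ¬ ∃ h : L → T, StrictMono h) :
    NoNarrow L T (fun X => #X < κ) := fun J hJ B hB g hg hgB =>
  hno (narrowChain' H hT J hJ B hB g hg hgB)

/-- The tree of coarse histories has no chain of type `κ⁺`. -/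
theorem HT.noChain (H : SuccLike κ L) (hI : #I ≤ κ) {Small : Set T → Prop}
    (hsmall : ∀ G ∈ 𝒢, ∀ a ξ, Small (G a ξ)) (hno : NoNarrow L T Small) :
    ¬ ∃ h : L → HT hw l0 ι 𝒢, StrictMono h := by
  rintro ⟨h, hh⟩
  choose G hG k hk hW using fun i => (h i).2
  have hx : ∀ i, (h i).1.1 = dl hw l0 (e0 I T) ι (G i) (k i) := fun i => by rw [hk i]; rfl
  have hx2 : ∀ i, (h i).1.2 = cut (e0 I T) (G i) (h i).1.1 := fun i => by
    rw [hk i]; rfl
  have agree : ∀ i i', i < i' → ∀ a < dl hw l0 (e0 I T) ι (G i) (k i), G i a = G i' a := by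
    intro i i' hii
    have h1 := HT.le_iff.mp (hh hii).le
    have h2 : cut (e0 I T) (G i) (h i).1.1 = cut (e0 I T) (G i') (h i).1.1 := by
      rw [← hx2 i, h1.2, hx2 i', cut_cut h1.1]
    have h3 := of_cut_eq h2
    rwa [hx i] at h3
  have hkm : StrictMono k := by
    intro i i' hii
    have h1 := dl_dep (hw := hw) (l0 := l0) (v0 := e0 I T) (ι := ι) H (G i) (G i') (k i)
      (agree i i' hii) (k i) le_rfl
    have h2 : dl hw l0 (e0 I T) ι (G i') (k i) < dl hw l0 (e0 I T) ι (G i') (k i') := by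
      rw [h1, ← hx i, ← hx i']
      exact HT.lt_fst (hh hii)
    exact (dl_mono H (G i')).lt_iff_lt.mp h2
  have hki : ∀ i, i ≤ k i := le_of_strictMono H.wf k hkm
  have same : ∀ j i i', j < i → j < i' → inf hw l0 ι (G i) j = inf hw l0 ι (G i') j := by
    have main : ∀ j i i', j < i → i < i' → inf hw l0 ι (G i) j = inf hw l0 ι (G i') j := by
      intro j i i' h1 h2
      have h3 := cd_dep (hw := hw) (l0 := l0) (v0 := e0 I T) (ι := ι) H (G i) (G i') (k i)
        (agree i i' h2) (lt_of_lt_of_le h1 (hki i))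
      unfold inf
      rw [h3.2, h3.1]
    intro j i i' h1 h2
    rcases lt_trichotomy i i' with h3 | h3 | h3
    · exact main j i i' h1 h3
    · rw [h3]
    · exact (main j i' i h2 h3).symm
  choose nx hnx using H.exGt
  let B : I → L → Set T := fun ξ j => inf hw l0 ι (G (nx j)) j ξ
  have hB : ∀ ξ j i, j < i → inf hw l0 ι (G i) j ξ = B ξ j := fun ξ j i hji => by
    rw [same j i (nx j) hji (hnx j)]
  have hex : ∀ j, ∃ ξ, (B ξ j).Nonempty := fun j =>
    (hW (nx j)).1 j (lt_of_lt_of_le (hnx j) (hki _))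
  choose lab hlab using hex
  obtain ⟨ξ, hξ⟩ := H.pigeon hI Set.univ (fun b => by
      obtain ⟨i, hi⟩ := H.exGt b
      exact ⟨i, Set.mem_univ _, hi⟩) lab
  choose g hg1 hg2 using fun i => (hW i).2
  refine hno {j | (B ξ j).Nonempty} ?_ (B ξ)
    (fun j => hsmall _ (hG _) _ _) (fun i j => g i ξ j) ?_ ?_
  · intro b
    obtain ⟨i, -, hbi, hi⟩ := hξ b
    refine ⟨i, ?_, hbi⟩
    have := hlab i
    rwa [hi] at this
  · intro i j hj j' hj' hjj hji
    have hj : (B ξ j).Nonempty := hj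
    have hj' : (B ξ j').Nonempty := hj'
    refine hg2 i ξ j j' hjj (lt_of_lt_of_le hji (hki i)) ?_ ?_
    · rwa [hB ξ j i (hjj.trans hji)]
    · rwa [hB ξ j' i hji]
  · intro i j hj hji
    have hj : (B ξ j).Nonempty := hj
    have h1 := hg1 i ξ j (lt_of_lt_of_le hji (hki i)) (by rwa [hB ξ j i hji])
    rwa [hB ξ j i hji] at h1

/-- `G` captures strictly increasing maps into `T` on the tree `S`, whose nodes are coded by `c`:
for every node there is a label at which the value of `G` at the code of the node is nonempty, and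
for every label there is a strictly increasing selection at the nodes where the value is not
empty. -/
def Captures {S : Type u} [PartialOrder S] (c : S → L) (G : L → (I → Set T)) : Prop :=
  (∀ s, ∃ ξ, (G (c s) ξ).Nonempty) ∧ ∀ ξ, ∃ g : S → T,
    (∀ s, (G (c s) ξ).Nonempty → g s ∈ G (c s) ξ) ∧
    ∀ s s', s < s' → (G (c s) ξ).Nonempty → (G (c s') ξ).Nonempty → g s < g s'

/-- No member of `𝒢` captures the strictly increasing maps on the tree of coarse histories. -/
theorem HT.notCaptured (H : SuccLike κ L) (t0 : T) (hI : #I ≤ κ) {Small : Set T → Prop}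
    (hsmall : ∀ G ∈ 𝒢, ∀ a ξ, Small (G a ξ)) (hno : NoNarrow L T Small)
    (G : L → (I → Set T)) (hG : G ∈ 𝒢) :
    ¬ Captures (fun p : HT hw l0 ι 𝒢 => ι p.1) G := by
  classical
  rintro ⟨h1, h2⟩
  choose g hg1 hg2 using h2
  have hW : ∀ i, Wit hw l0 ι G i := by
    intro i
    induction i using H.wf.wf.induction with
    | _ i ih =>
      let P : ∀ j, j < i → HT hw l0 ι 𝒢 := fun j hj => ⟨nd hw l0 ι G j, G, hG, j, rfl, ih j hj⟩
      have hP : ∀ j (hj : j < i), inf hw l0 ι G j = G (ι (P j hj).1) := fun j hj => rfl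
      have hlt : ∀ j j' (hj : j < i) (hj' : j' < i), j < j' → P j hj < P j' hj' := by
        intro j j' hj hj' hjj
        have h3 : dl hw l0 (e0 I T) ι G j < dl hw l0 (e0 I T) ι G j' := dl_lt H G hjj
        exact HT.lt_of h3 (cut_cut h3.le).symm
      refine ⟨fun j hj => ?_, fun ξ j => if hj : j < i then g ξ (P j hj) else t0, ?_, ?_⟩
      · exact h1 (P j hj)
      · intro ξ j hj hne
        simp only [dif_pos hj]
        exact hg1 ξ (P j hj) hne
      · intro ξ j j' hjj hj' hne hne'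
        simp only [dif_pos hj', dif_pos (hjj.trans hj')]
        exact hg2 ξ _ _ (hlt j j' (hjj.trans hj') hj' hjj) hne hne'
  refine HT.noChain (hw := hw) (l0 := l0) (ι := ι) H hI hsmall hno
    ⟨fun i => ⟨nd hw l0 ι G i, G, hG, i, rfl, hW i⟩, fun i j hij => ?_⟩
  have h3 : dl hw l0 (e0 I T) ι G i < dl hw l0 (e0 I T) ι G j := dl_lt H G hij
  exact HT.lt_of h3 (cut_cut h3.le).symm

/-- The set of all possible nodes. -/
def nodes (𝒢 : Set (L → (I → Set T))) : Set (L × (L → (I → Set T))) :=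
  {p | ∃ G ∈ 𝒢, p.2 = cut (e0 I T) G p.1}

theorem HT.mem_nodes (p : HT hw l0 ι 𝒢) : p.1 ∈ nodes 𝒢 := by
  obtain ⟨G, hG, i, hp, -⟩ := p.2
  exact ⟨G, hG, by rw [hp]; rfl⟩

theorem card_nodes (hκ : ℵ₀ ≤ κ) (hL : #L ≤ Order.succ κ) (𝒢 : Set (L → (I → Set T)))
    (hfew : ∀ δ : L, #((fun (G : L → (I → Set T)) (a : Set.Iio δ) => G a) '' 𝒢) ≤
      Order.succ κ) : #(nodes 𝒢) ≤ Order.succ κ := by
  classical
  have hinf : ℵ₀ ≤ Order.succ κ := hκ.trans (Order.le_succ κ)
  let R : L → Type u := fun δ => ((fun (G : L → (I → Set T)) (a : Set.Iio δ) => G a) '' 𝒢 : Set _)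
  let F : (Σ δ : L, R δ) → L × (L → (I → Set T)) := fun q =>
    (q.1, fun a => if h : a < q.1 then q.2.1 ⟨a, h⟩ else e0 I T)
  have h1 : nodes 𝒢 ⊆ Set.range F := by
    rintro ⟨δ, f⟩ ⟨G, hG, hf⟩
    refine ⟨⟨δ, ⟨fun a : Set.Iio δ => G a, G, hG, rfl⟩⟩, ?_⟩
    refine Prod.ext rfl ?_
    have hf' : f = cut (e0 I T) G δ := hf
    rw [hf']
    funext a
    by_cases ha : a < δ
    · simp [F, cut, ha]
    · simp [F, cut, ha]
  calc #(nodes 𝒢) ≤ #(Set.range F) := mk_le_mk_of_subset h1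
    _ ≤ #(Σ δ : L, R δ) := mk_range_le
    _ = Cardinal.sum (fun δ : L => #(R δ)) := mk_sigma _
    _ ≤ Cardinal.sum (fun _ : L => Order.succ κ) := Cardinal.sum_le_sum _ _ hfew
    _ = #L * Order.succ κ := by simp
    _ ≤ Order.succ κ * Order.succ κ := by gcongr
    _ = Order.succ κ := Cardinal.mul_eq_self hinf

end tree

end Pool.Agent.Helper599
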