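import Mathlib

/-!
# Well-orders which look like the successor of a cardinal, and Kurepa's narrow tree lemma

`SuccLike κ L` says that the well-order `L` looks like the cardinal successor of `κ`.
`kurepa` is the abstract form of the fact that a tree of height `κ⁺` all of whose levels have
fewer than `κ` elements has a cofinal branch.
-/

universe u

open Cardinal Set

namespace Pool.Agent.Helper599

/-- The well-order `L` looks like the successor of the infinite cardinal `κ`. -/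
structure SuccLike (κ : Cardinal.{u}) (L : Type u) [LinearOrder L] : Prop where
  inf : ℵ₀ ≤ κ
  wf : WellFoundedLT L
  ne : Nonempty L
  small : ∀ i : L, #(Set.Iio i) ≤ κ
  bdd : ∀ X : Set L, #X ≤ κ → ∃ b, ∀ x ∈ X, x < b

namespace SuccLike

variable {κ : Cardinal.{u}} {L : Type u} [LinearOrder L] (H : SuccLike κ L)
include H

theorem exGt (i : L) : ∃ b, i < b := by
  obtain ⟨b, hb⟩ := H.bdd {i} (by simpa using le_trans (by simp) H.inf)
  exact ⟨b, hb i rfl⟩

theorem bddR {D : Type u} (hD : #D ≤ κ) (f : D → L) : ∃ b, ∀ d, f d < b := by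
  obtain ⟨b, hb⟩ := H.bdd (Set.range f) (le_trans mk_range_le hD)
  exact ⟨b, fun d => hb _ ⟨d, rfl⟩⟩

theorem exGt2 (i j : L) : ∃ b, i < b ∧ j < b := by
  obtain ⟨b, hb⟩ := H.exGt (max i j)
  exact ⟨b, lt_of_le_of_lt (le_max_left _ _) hb, lt_of_le_of_lt (le_max_right _ _) hb⟩

/-- The pigeonhole principle: a partition of an unbounded set into at most `κ` pieces has an
unbounded piece. -/
theorem pigeon {D : Type u} (hD : #D ≤ κ) (J : Set L) (hJ : ∀ b, ∃ i ∈ J, b < i) (f : L → D) :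
    ∃ d, ∀ b, ∃ i ∈ J, b < i ∧ f i = d := by
  by_contra hcon
  push Not at hcon
  choose b hb using hcon
  obtain ⟨c, hc⟩ := H.bddR hD b
  obtain ⟨i, hi, hci⟩ := hJ c
  exact hb (f i) i hi (lt_trans (hc _) hci) rfl

end SuccLike

section kur

variable {κ : Cardinal.{u}} {L : Type u} [LinearOrder L] {A : Type u}

/-- **Kurepa's lemma** in the form of coherent systems: the sequences `c i` (for `i ∈ L`) of
length `i` are coherent, and at every place fewer than `κ` values occur.  Then there is a thread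
of length `L` each of whose initial segments is an initial segment of unboundedly many of the
sequences `c i`. -/
theorem kurepa (H : SuccLike κ L) (c : L → L → A)
    (coh : ∀ i i' j j', j < j' → j' < i → j' < i' → c i j' = c i' j' → c i j = c i' j)
    (a : L → Set A) (ha : ∀ j, #(a j) < κ) (hc : ∀ i j, j < i → c i j ∈ a j) :
    ∃ h : L → A, ∀ j b, ∃ i, b < i ∧ j < i ∧ ∀ j' ≤ j, c i j' = h j' := by
  have hwf := H.wf
  classical
  by_contra hno
  -- big elements
  let Big : L → A → Prop := fun j t => ∀ b, ∃ i, b < i ∧ j < i ∧ c i j = t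
  have bigMem : ∀ j t, Big j t → t ∈ a j := by
    intro j t ht
    obtain ⟨i, -, hji, rfl⟩ := ht j
    exact hc i j hji
  -- pigeonhole for big elements above a given unbounded set
  have F1 : ∀ (J : Set L) (_ : ∀ b, ∃ i ∈ J, b < i) (j : L),
      ∃ t, ∀ b, ∃ i ∈ J, b < i ∧ j < i ∧ c i j = t := by
    intro J hJ j
    have hJ' : ∀ b, ∃ i ∈ J ∩ Set.Ioi j, b < i := by
      intro b
      obtain ⟨i, hi, hbi⟩ := hJ (max b j)
      exact ⟨i, ⟨hi, lt_of_le_of_lt (le_max_right _ _) hbi⟩,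
        lt_of_le_of_lt (le_max_left _ _) hbi⟩
    have hne : Nonempty (a j) := by
      obtain ⟨i, hi, -⟩ := hJ' j
      exact ⟨⟨c i j, hc i j hi.2⟩⟩
    let f : L → a j := fun i => if h : j < i then ⟨c i j, hc i j h⟩ else hne.some
    obtain ⟨d, hd⟩ := H.pigeon (ha j).le _ hJ' f
    refine ⟨d.1, fun b => ?_⟩
    obtain ⟨i, hi, hbi, hfi⟩ := hd b
    have h1 : j < i := hi.2
    refine ⟨i, hi.1, hbi, h1, ?_⟩
    have : f i = ⟨c i j, hc i j h1⟩ := by simp only [f, dif_pos h1]
    rw [this] at hfi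
    exact congrArg Subtype.val hfi
  have exBig : ∀ j, ∃ t, Big j t := by
    intro j
    obtain ⟨t, ht⟩ := F1 Set.univ (fun b => by
      obtain ⟨i, hi⟩ := H.exGt b
      exact ⟨i, Set.mem_univ _, hi⟩) j
    refine ⟨t, fun b => ?_⟩
    obtain ⟨i, -, h1, h2, h3⟩ := ht b
    exact ⟨i, h1, h2, h3⟩
  haveI : Nonempty A := ⟨(exBig H.ne.some).choose⟩
  haveI : Nonempty L := H.ne
  -- extension relation
  let Ext : L → A → L → A → Prop := fun j t j' t' => ∃ i, j < i ∧ j' < i ∧ c i j = t ∧ c i j' = t'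
  have coh' : ∀ i i' j j', j ≤ j' → j' < i → j' < i' → c i j' = c i' j' → c i j = c i' j := by
    intro i i' j j' hj h1 h2 h3
    rcases hj.eq_or_lt with rfl | hlt
    · exact h3
    · exact coh i i' j j' hlt h1 h2 h3
  have extUse : ∀ j t j' t', j ≤ j' → Ext j t j' t' → ∀ i, j' < i → c i j' = t' → c i j = t := by
    rintro j t j' t' hj ⟨i0, h1, h2, h3, h4⟩ i hi hit
    rw [← h3]
    exact coh' _ _ _ _ hj hi h2 (hit.trans h4.symm)
  have extBig : ∀ j t, Big j t → ∀ j', j ≤ j' → ∃ t', Big j' t' ∧ Ext j t j' t' := by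
    intro j t ht j' hj
    obtain ⟨t', ht'⟩ := F1 {i | j < i ∧ c i j = t} (fun b => by
      obtain ⟨i, h1, h2, h3⟩ := ht b
      exact ⟨i, ⟨h2, h3⟩, h1⟩) j'
    refine ⟨t', fun b => ?_, ?_⟩
    · obtain ⟨i, -, h1, h2, h3⟩ := ht' b
      exact ⟨i, h1, h2, h3⟩
    · obtain ⟨i, ⟨h0, h0'⟩, h1, h2, h3⟩ := ht' j
      exact ⟨i, h0, h2, h0', h3⟩
  -- restriction of a big element
  have resBig : ∀ j' t', Big j' t' → ∀ j, j ≤ j' → ∃ t, Big j t ∧ Ext j t j' t' := by
    intro j' t' ht' j hj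
    obtain ⟨i0, -, h1, h2⟩ := ht' j'
    refine ⟨c i0 j, fun b => ?_, i0, lt_of_le_of_lt hj h1, h1, rfl, h2⟩
    obtain ⟨i, g1, g2, g3⟩ := ht' b
    exact ⟨i, g1, lt_of_le_of_lt hj g2, coh' _ _ _ _ hj g2 h1 (g3.trans h2.symm)⟩
  -- every big element splits
  have split : ∀ j t, Big j t → ∃ j', j ≤ j' ∧ ∃ t1 t2, t1 ≠ t2 ∧ Big j' t1 ∧ Big j' t2 ∧
      Ext j t j' t1 ∧ Ext j t j' t2 := by
    intro j0 t0 ht0
    by_contra hns
    push Not at hns
    have key : ∀ j, j0 ≤ j → ∀ t1 t2, Big j t1 → Big j t2 → Ext j0 t0 j t1 → Ext j0 t0 j t2 →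
        t1 = t2 := by
      intro j hj t1 t2 h1 h2 h3 h4
      by_contra hne
      exact hns j hj t1 t2 hne h1 h2 h3 h4
    choose! e he1 he2 using extBig j0 t0 ht0
    obtain ⟨i0, -, hi0, hi0'⟩ := ht0 j0
    refine hno ⟨fun j => if j0 ≤ j then e j else c i0 j, ?_⟩
    -- the claim for `j ≥ j0`
    have claim : ∀ j, j0 ≤ j → ∀ b, ∃ i, b < i ∧ j < i ∧
        ∀ j' ≤ j, c i j' = if j0 ≤ j' then e j' else c i0 j' := by
      intro j hj b
      obtain ⟨i, h1, h2, h3⟩ := he1 j hj b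
      refine ⟨i, h1, h2, fun j' hj' => ?_⟩
      have hij0 : c i j0 = t0 := extUse _ _ _ _ hj (he2 j hj) i h2 h3
      by_cases hjj : j0 ≤ j'
      · rw [if_pos hjj]
        -- `c i j'` is big and extends `t0`
        obtain ⟨t, ht, ht'⟩ := resBig j (e j) (he1 j hj) j' hj'
        have e1 : c i j' = t := extUse _ _ _ _ hj' ht' i h2 h3
        rw [e1]
        refine key j' hjj t (e j') ht (he1 j' hjj) ?_ (he2 j' hjj)
        exact ⟨i, lt_of_le_of_lt hj h2, lt_of_le_of_lt hj' h2, hij0, e1⟩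
      · rw [if_neg hjj]
        exact coh' i i0 j' j0 (not_le.mp hjj).le (lt_of_le_of_lt hj h2) hi0
          (hij0.trans hi0'.symm)
    intro j b
    by_cases hj : j0 ≤ j
    · exact claim j hj b
    · obtain ⟨i, h1, h2, h3⟩ := claim j0 le_rfl b
      exact ⟨i, h1, lt_trans (not_le.mp hj) h2, fun j' hj' => h3 j' (hj'.trans (not_le.mp hj).le)⟩
  choose! s hs1 e1 e2 hne he1 he2 hE1 hE2 using split
  -- the number of big elements
  let β : L → Cardinal.{u} := fun j => #{t | Big j t}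
  have hβ : ∀ j, β j < κ := fun j => lt_of_le_of_lt (mk_le_mk_of_subset (bigMem j)) (ha j)
  let m : L → κ.ord.ToType := fun j => Ordinal.ToType.mk ⟨(β j).ord, ord_lt_ord.mpr (hβ j)⟩
  obtain ⟨d, hd⟩ := H.pigeon (by simp) Set.univ (fun b => by
      obtain ⟨i, hi⟩ := H.exGt b
      exact ⟨i, Set.mem_univ _, hi⟩) m
  obtain ⟨j1, -, -, hj1⟩ := hd H.ne.some
  have hμ : ∀ j, m j = d → β j = β j1 := by
    intro j hj
    have h0 : m j = m j1 := hj.trans hj1.symm
    have h1 := Ordinal.ToType.mk.injective h0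
    exact ord_injective (congrArg Subtype.val h1)
  set μ := β j1 with hμdef
  have hμκ : μ < κ := hβ j1
  have hsμ : Order.succ μ ≤ κ := Order.succ_le_of_lt hμκ
  -- the sequence of levels
  let K := (Order.succ μ).ord.ToType
  have hK : #K ≤ κ := by simpa [K] using hsμ
  have hbig : ∀ j, #{t | Big j t} ≤ κ := fun j => (hβ j).le
  have step : ∀ (k : K) (r : ∀ k', k' < k → L), ∃ x : L, ∀ k' (hk : k' < k),
      r k' hk < x ∧ ∀ t, Big (r k' hk) t → s (r k' hk) t < x := by
    intro k r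
    let D := Set.Iio k
    have hD : #D ≤ κ := le_trans (mk_set_le _) hK
    have hb : ∀ k' : D, ∃ y, ∀ t : {t | Big (r k'.1 k'.2) t}, s (r k'.1 k'.2) t.1 < y :=
      fun k' => H.bddR (hbig _) _
    choose y hy using hb
    obtain ⟨x1, hx1⟩ := H.bddR hD y
    obtain ⟨x2, hx2⟩ := H.bddR hD (fun k' : D => r k'.1 k'.2)
    refine ⟨max x1 x2, fun k' hk => ⟨lt_of_lt_of_le (hx2 ⟨k', hk⟩) (le_max_right _ _),
      fun t ht => ?_⟩⟩
    exact lt_trans (hy ⟨k', hk⟩ ⟨t, ht⟩) (lt_of_lt_of_le (hx1 ⟨k', hk⟩) (le_max_left _ _))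
  choose F hF using step
  let i : K → L := (wellFounded_lt (α := K)).fix F
  have hi : ∀ k, i k = F k (fun k' _ => i k') := fun k => WellFounded.fix_eq _ _ _
  have hi1 : ∀ k' k, k' < k → i k' < i k ∧ ∀ t, Big (i k') t → s (i k') t < i k := by
    intro k' k hk
    have h0 := hF k (fun k' _ => i k') k' hk
    rw [← hi k] at h0
    exact h0
  -- a level above all of them
  have hb : ∀ k : K, ∃ y, ∀ t : {t | Big (i k) t}, s (i k) t.1 < y := fun k => H.bddR (hbig _) _
  choose y hy using hb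
  obtain ⟨x1, hx1⟩ := H.bddR hK y
  obtain ⟨x2, hx2⟩ := H.bddR hK i
  obtain ⟨z, -, hz, hzd⟩ := hd (max x1 x2)
  have hzi : ∀ k, i k < z := fun k =>
    lt_trans (lt_of_lt_of_le (hx2 k) (le_max_right _ _)) hz
  have hzs : ∀ k t, Big (i k) t → s (i k) t < z := fun k t ht =>
    lt_trans (lt_trans (hy k ⟨t, ht⟩) (lt_of_lt_of_le (hx1 k) (le_max_left _ _))) hz
  obtain ⟨ts, hts⟩ := exBig z
  -- restrictions of `ts`
  have hu : ∀ k, ∃ t, Big (i k) t ∧ Ext (i k) t z ts := fun k => resBig z ts hts _ (hzi k).le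
  choose v hv hv' using hu
  -- elements leaving the branch of `ts`
  have hw : ∀ k, ∃ w, Big (s (i k) (v k)) w ∧ ¬ Ext (s (i k) (v k)) w z ts ∧
      Ext (i k) (v k) (s (i k) (v k)) w := by
    intro k
    by_cases h1 : Ext (s (i k) (v k)) (e1 (i k) (v k)) z ts
    · refine ⟨e2 (i k) (v k), he2 _ _ (hv k), fun h2 => ?_, hE2 _ _ (hv k)⟩
      obtain ⟨i0, -, g2, g3, g4⟩ := h1
      have := extUse _ _ _ _ (hzs k _ (hv k)).le h2 i0 g2 g4
      exact hne _ _ (hv k) (g3.symm.trans this)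
    · exact ⟨e1 (i k) (v k), he1 _ _ (hv k), h1, hE1 _ _ (hv k)⟩
  choose w hw1 hw2 hw3 using hw
  have hd' : ∀ k, ∃ t', Big z t' ∧ Ext (s (i k) (v k)) (w k) z t' := fun k =>
    extBig _ _ (hw1 k) z (hzs k _ (hv k)).le
  choose dd hdd1 hdd2 using hd'
  have inj : Function.Injective (fun k : K => (⟨dd k, hdd1 k⟩ : {t | Big z t})) := by
    have main : ∀ k k' : K, k < k' → dd k ≠ dd k' := by
      intro k k' hk heq
      -- take a witness for `dd k'`
      obtain ⟨i0, -, g2, g3, g4⟩ := hdd2 k'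
      -- level `i k'` below: `c i0 (i k') = v k'`
      have a1 : c i0 (i k') = v k' :=
        extUse _ _ _ _ (hs1 _ _ (hv k')) (hw3 k') i0
          (lt_trans (hzs k' _ (hv k')) g2) g3
      have a2 : c i0 (s (i k) (v k)) = w k := by
        have := extUse _ _ _ _ (hzs k _ (hv k)).le (hdd2 k) i0 g2 (g4.trans heq.symm)
        exact this
      -- a witness for `ts` over `v k'`
      obtain ⟨i1, b1, b2, b3, b4⟩ := hv' k'
      have hlt := (hi1 k k' hk).2 _ (hv k)
      have a3 : c i1 (s (i k) (v k)) = c i0 (s (i k) (v k)) :=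
        coh' _ _ _ _ hlt.le b1 (lt_trans (hzi k') g2) (b3.trans a1.symm)
      exact hw2 k ⟨i1, lt_trans hlt b1, b2, a3.trans a2, b4⟩
    intro k k' hkk
    have h0 : dd k = dd k' := congrArg Subtype.val hkk
    rcases lt_trichotomy k k' with h | h | h
    · exact absurd h0 (main k k' h)
    · exact h
    · exact absurd h0.symm (main k' k h)
  have hcard : #K ≤ #{t | Big z t} := mk_le_of_injective inj
  have h2 : #{t | Big z t} = μ := hμ z hzd
  rw [h2] at hcard
  have h3 : #K = Order.succ μ := by simp [K]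
  rw [h3] at hcard
  exact absurd hcard (not_le.mpr (Order.lt_succ μ))

end kur

end Pool.Agent.Helper599
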