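import Pool.Agent.Helper599_WA.Aron

/-!
# Lexicographic products and the passage from weak to strong universality
-/

universe u

open Cardinal Set

namespace Pool.Agent.Helper599

section lexp

variable {κ : Cardinal.{u}} {S : Type u} [PartialOrder S] {L : Type u} [LinearOrder L]

theorem TreeLike.lex (hS : TreeLike S) (hw : WellFoundedLT L) : TreeLike (S ×ₗ L) where
  wf := by
    have h1 := hS.wf
    infer_instance
  comp t a b ha hb := by
    rw [Prod.Lex.le_iff] at ha hb
    have h1 : (ofLex a).1 ≤ (ofLex t).1 := ha.elim (fun h => h.le) (fun h => h.1.le)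
    have h2 : (ofLex b).1 ≤ (ofLex t).1 := hb.elim (fun h => h.le) (fun h => h.1.le)
    rcases hS.comp _ _ _ h1 h2 with h | h
    · rcases h.eq_or_lt with h | h
      · rcases le_total (ofLex a).2 (ofLex b).2 with h' | h'
        · exact Or.inl (Prod.Lex.le_iff.mpr (Or.inr ⟨h, h'⟩))
        · exact Or.inr (Prod.Lex.le_iff.mpr (Or.inr ⟨h.symm, h'⟩))
      · exact Or.inl (Prod.Lex.le_iff.mpr (Or.inl h))
    · rcases h.eq_or_lt with h | h
      · rcases le_total (ofLex a).2 (ofLex b).2 with h' | h'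
        · exact Or.inl (Prod.Lex.le_iff.mpr (Or.inr ⟨h.symm, h'⟩))
        · exact Or.inr (Prod.Lex.le_iff.mpr (Or.inr ⟨h, h'⟩))
      · exact Or.inr (Prod.Lex.le_iff.mpr (Or.inl h))

/-- If the fibres have size at most `κ` and the base has no chain of type `κ⁺`, then there is no
chain of type `κ⁺`. -/
theorem noChain_of_fibres {Q : Type u} [PartialOrder Q] (H : SuccLike κ (Lam κ))
    (p : Q → S) (hp : Monotone p) (hfib : ∀ s, #{q : Q | p q = s} ≤ κ)
    (hno : ¬ ∃ h : Lam κ → S, StrictMono h) : ¬ ∃ h : Lam κ → Q, StrictMono h := by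
  rintro ⟨h, hh⟩
  have hm : ∀ i j, i ≤ j → p (h i) ≤ p (h j) := fun i j hij => hp (hh.monotone hij)
  have step : ∀ b, ∃ i, p (h b) < p (h i) := by
    intro b
    by_contra hcon
    push Not at hcon
    have h1 : ∀ i, b ≤ i → p (h i) = p (h b) := by
      intro i hbi
      rcases (hm b i hbi).eq_or_lt with h2 | h2
      · exact h2.symm
      · exact absurd h2 (hcon i)
    obtain ⟨e, he, he'⟩ := exEnum H {i | b ≤ i} (fun c => by
      obtain ⟨i, h2, h3⟩ := H.exGt2 b c
      exact ⟨i, h2.le, h3⟩)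
    have h2 : Function.Injective
        (fun i : Lam κ => (⟨h (e i), h1 _ (he' i)⟩ : {q : Q | p q = p (h b)})) := by
      intro i j hij
      exact he.injective (hh.injective (congrArg Subtype.val hij))
    have h3 := mk_le_of_injective h2
    rw [mk_lam] at h3
    exact absurd (h3.trans (hfib _)) (not_le.mpr (Order.lt_succ κ))
  have hX : ∀ b, ∃ i ∈ {i | ∀ j < i, p (h j) < p (h i)}, b < i := by
    intro b
    have hwf := H.wf
    let m := hwf.wf.min {i | p (h b) < p (h i)} (step b)
    have hm1 : p (h b) < p (h m) := hwf.wf.min_mem _ (step b)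
    have hm2 : ∀ j < m, ¬ p (h b) < p (h j) := fun j hj hc =>
      hwf.wf.not_lt_min {i | p (h b) < p (h i)} hc hj
    refine ⟨m, fun j hj => ?_, ?_⟩
    · rcases le_total b j with hbj | hbj
      · rcases (hm b j hbj).eq_or_lt with h2 | h2
        · rw [← h2]; exact hm1
        · exact absurd h2 (hm2 j hj)
      · exact lt_of_le_of_lt (hm j b hbj) hm1
    · by_contra hcon
      rw [not_lt] at hcon
      exact absurd (hm m b hcon) (not_le_of_gt hm1)
  obtain ⟨e, he, he'⟩ := exEnum H _ hX
  exact hno ⟨fun i => p (h (e i)), fun i j hij => he' j _ (he hij)⟩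

theorem noChain_sigma (H : SuccLike κ (Lam κ)) {J : Type u} {F : J → Type u}
    [∀ j, PartialOrder (F j)] (hF : ∀ j, ¬ ∃ h : Lam κ → F j, StrictMono h) :
    ¬ ∃ h : Lam κ → (Σ j, F j), StrictMono h := by
  rintro ⟨h, hh⟩
  let i0 : Lam κ := H.ne.some
  have h1 : ∀ i, i0 < i → ∃ y : F (h i0).1, h i = ⟨(h i0).1, y⟩ := by
    intro i hi
    have h2 := hh hi
    rw [Sigma.lt_def] at h2
    obtain ⟨h3, -⟩ := h2
    generalize h i = q at h3
    obtain ⟨j, y⟩ := q
    dsimp only at h3
    subst h3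
    exact ⟨y, rfl⟩
  haveI : Nonempty (F (h i0).1) := ⟨(h i0).2⟩
  choose! y hy using h1
  obtain ⟨e, he, he'⟩ := exEnum H {i | i0 < i} (fun b => by
    obtain ⟨i, h2, h3⟩ := H.exGt2 i0 b
    exact ⟨i, h2, h3⟩)
  refine hF (h i0).1 ⟨fun i => y (e i), fun i j hij => ?_⟩
  have h2 := hh (he hij)
  rw [hy _ (he' i), hy _ (he' j), Sigma.lt_def] at h2
  obtain ⟨h3, h4⟩ := h2
  exact h4

end lexp

section weak

variable {κ : Cardinal.{u}}

/-- A family of at most `κ⁺` wide `κ⁺`-Aronszajn trees which is universal for (not necessarily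
injective) strictly increasing maps gives a maximal wide `κ⁺`-Aronszajn tree. -/
theorem exMaximal (hκ : ℵ₀ ≤ κ) (J : Type u) (hJ : #J ≤ Order.succ κ) (F : J → Type u)
    [∀ j, PartialOrder (F j)] (hF : ∀ j, IsWideAronszajn (Order.succ κ) (F j))
    (huniv : ∀ (S : Type u) [PartialOrder S], IsWideAronszajn (Order.succ κ) S →
      ∃ (j : J) (f : S → F j), StrictMono f) :
    ∃ (T : Type u) (_ : PartialOrder T), IsMaximalWideAronszajn (Order.succ κ) T := by
  classical
  have H := lam_succLike hκ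
  have hinf : ℵ₀ ≤ Order.succ κ := hκ.trans (Order.le_succ κ)
  let T0 := Σ j, F j
  have hT0 : TreeLike T0 := TreeLike.sigma (fun j => (hF j).1.treeLike)
  have hT0n : ¬ ∃ h : Lam κ → T0, StrictMono h := noChain_sigma H (fun j => (hF j).noChain)
  have hT0c : #T0 ≤ Order.succ κ := by
    change #(Σ j, F j) ≤ _
    rw [mk_sigma]
    calc Cardinal.sum (fun j => #(F j)) ≤ Cardinal.sum (fun _ : J => Order.succ κ) :=
          Cardinal.sum_le_sum _ _ (fun j => (hF j).2.2.1.le)
      _ = #J * Order.succ κ := by simp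
      _ ≤ Order.succ κ * Order.succ κ := by gcongr
      _ = Order.succ κ := Cardinal.mul_eq_self hinf
  let K := κ.ord.ToType
  have hK : #K = κ := by simp [K]
  let T1 := T0 ×ₗ K
  have hT1 : TreeLike T1 := hT0.lex inferInstance
  have hT1c : #T1 ≤ Order.succ κ := by
    change #(T0 × K) ≤ _
    rw [mk_prod]
    simp only [lift_id]
    rw [hK]
    calc #T0 * κ ≤ Order.succ κ * Order.succ κ := by
          gcongr
          exact Order.le_succ κ
      _ = Order.succ κ := Cardinal.mul_eq_self hinf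
  have hT1n : ¬ ∃ h : Lam κ → T1, StrictMono h := by
    refine noChain_of_fibres H (fun q : T1 => (ofLex q).1) Prod.Lex.monotone_fst_ofLex ?_ hT0n
    intro s
    have h1 : Function.Injective (fun q : {q : T1 | (ofLex q).1 = s} => (ofLex q.1).2) := by
      rintro ⟨q, hq⟩ ⟨q', hq'⟩ h
      refine Subtype.ext ?_
      exact ofLex.injective (Prod.ext (hq.trans hq'.symm) h)
    exact (mk_le_of_injective h1).trans hK.le
  refine ⟨Pad κ T1, inferInstance, pad_wide hκ hT1 hT1c hT1n, ?_⟩
  intro S _ hS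
  have hSL := hS.1.treeLike
  obtain ⟨i⟩ : Nonempty (S ↪ Lam κ) := (hS.2.2.1.trans (mk_lam κ).symm).le
  let N : Set (S ×ₗ Lam κ) := {q | (ofLex q).2 ≤ i (ofLex q).1}
  have hN : TreeLike N := (hSL.lex inferInstance).subtype N
  have hIic : ∀ x : Lam κ, #(Set.Iic x) ≤ κ := by
    intro x
    obtain ⟨b, hb⟩ := H.exGt x
    exact (mk_le_mk_of_subset (fun y hy => lt_of_le_of_lt hy hb)).trans (H.small b)
  have hNn : ¬ ∃ h : Lam κ → N, StrictMono h := by
    refine noChain_of_fibres H (fun q : N => (ofLex q.1).1)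
      (fun a b hab => Prod.Lex.monotone_fst_ofLex hab) ?_ hS.noChain
    intro s
    have h1 : Function.Injective (fun q : {q : N | (ofLex q.1).1 = s} =>
        (⟨(ofLex q.1.1).2, by
          have h2 := q.1.2
          have h3 : (ofLex q.1.1).1 = s := q.2
          change (ofLex q.1.1).2 ≤ i (ofLex q.1.1).1 at h2
          rwa [h3] at h2⟩ : Set.Iic (i s))) := by
      rintro ⟨q, hq⟩ ⟨q', hq'⟩ h
      refine Subtype.ext (Subtype.ext ?_)
      exact ofLex.injective (Prod.ext (hq.trans hq'.symm) (congrArg Subtype.val h))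
    exact (mk_le_of_injective h1).trans (hIic _)
  have hNc : #N ≤ Order.succ κ := by
    refine (mk_set_le N).trans ?_
    change #(S × Lam κ) ≤ _
    rw [mk_prod]
    simp only [lift_id]
    rw [hS.2.2.1, mk_lam]
    exact (Cardinal.mul_eq_self hinf).le
  obtain ⟨j, g, hg⟩ := huniv (Pad κ N) (pad_wide hκ hN hNc hNn)
  -- the map into the disjoint sum
  let f1 : N → T0 := fun q => ⟨j, g (padIn κ q)⟩
  have hf1 : StrictMono f1 := by
    intro q q' hq
    exact Sigma.lt_def.mpr ⟨rfl, hg (padIn_lt hq)⟩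
  have hq00 : ∀ s : S, toLex (s, i s) ∈ N := fun s => by
    change i s ≤ i s
    exact le_rfl
  let q0 : S → N := fun s => ⟨toLex (s, i s), hq00 s⟩
  have hq0 : StrictMono q0 := by
    intro s s' hs
    exact Prod.Lex.lt_iff.mpr (Or.inl hs)
  let f : S → T0 := fun s => f1 (q0 s)
  have hf : StrictMono f := hf1.comp hq0
  -- the rank of `f s` is large
  have hrk : ∀ s, Ordinal.typein (α := Lam κ) (· < ·) (i s) ≤ rk hT0 (f s) := by
    intro s
    obtain ⟨γ, hγ⟩ := H.exGt (i s)
    let φ : Lam κ → T0 := fun y =>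
      if h : y ≤ i s then f1 ⟨toLex (s, y), h⟩ else f1 (q0 s)
    have h1 : ∀ y ≤ i s, Ordinal.typein (α := Lam κ) (· < ·) y ≤ rk hT0 (φ y) := by
      intro y
      induction y using (wellFounded_lt (α := Lam κ)).induction with
      | _ y ih =>
        intro hy
        by_contra hc
        rw [not_le] at hc
        obtain ⟨z, hz⟩ := Ordinal.typein_surj (α := Lam κ) (· < ·)
          (hc.trans (Ordinal.typein_lt_type _ y))
        rw [← hz] at hc
        have hzy : z < y := (Ordinal.typein_lt_typein (α := Lam κ) (· < ·)).mp hc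
        have h5 := ih z hzy (hzy.le.trans hy)
        have h6 : φ z < φ y := by
          simp only [φ, dif_pos hy, dif_pos (hzy.le.trans hy)]
          exact hf1 (Prod.Lex.lt_iff.mpr (Or.inr ⟨rfl, hzy⟩))
        have h7 := rk_lt hT0 h6
        rw [← hz] at h7
        exact absurd h5 (not_le.mpr h7)
    have h2 := h1 (i s) le_rfl
    simp only [φ, dif_pos le_rfl] at h2
    exact h2
  -- the fibres of `f` have size at most `κ`
  have hfib : ∀ t : T0, ∃ e : {s : S | f s = t} → K, Function.Injective e := by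
    intro t
    have h1 := rk_lt_type (L := Lam κ) hT0 hT0n t
    obtain ⟨x, hx⟩ := Ordinal.typein_surj (α := Lam κ) (· < ·) h1
    have h2 : ∀ s : {s : S | f s = t}, i s.1 ∈ Set.Iic x := by
      rintro ⟨s, hs⟩
      have h3 := hrk s
      have hs' : f s = t := hs
      rw [hs', ← hx] at h3
      exact Set.mem_Iic.mpr (not_lt.mp ((Ordinal.typein_le_typein (α := Lam κ) (· < ·)).mp h3))
    have h4 : Function.Injective (fun s : {s : S | f s = t} => (⟨i s.1, h2 s⟩ : Set.Iic x)) := by
      intro s s' h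
      exact Subtype.ext (i.injective (congrArg Subtype.val h))
    have h5 : #{s : S | f s = t} ≤ #K := (mk_le_of_injective h4).trans ((hIic x).trans hK.ge)
    obtain ⟨e⟩ := h5
    exact ⟨e, e.injective⟩
  choose e he using hfib
  refine ⟨fun s => padIn κ (toLex (f s, e (f s) ⟨s, rfl⟩)), ?_, ?_⟩
  · intro s s' h
    have h1 := toLex.injective (padIn_injective h)
    have h2 : f s = f s' := congrArg Prod.fst h1
    have h3 : e (f s) ⟨s, rfl⟩ = e (f s') ⟨s', rfl⟩ := congrArg Prod.snd h1
    have h4 : ∀ t (ht : f s' = t), e (f s') ⟨s', rfl⟩ = e t ⟨s', ht⟩ := by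
      rintro t rfl; rfl
    rw [h4 (f s) h2.symm] at h3
    exact congrArg Subtype.val (he _ h3)
  · intro s s' h
    exact padIn_lt (Prod.Lex.lt_iff.mpr (Or.inl (hf h)))

end weak

end Pool.Agent.Helper599
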