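import Pool.Agent.Helper599_WA.Pad

/-!
# The main theorem on coarse histories
-/

universe u

open Cardinal Set

namespace Pool.Agent.Helper599

variable {κ : Cardinal.{u}}

theorem padIn_injective {S : Type u} : Function.Injective (padIn κ : S → Pad κ S) := by
  intro a b h
  exact Sum.inl_injective (WithBot.coe_injective h)

/-- For every wide `κ⁺`-Aronszajn tree `T` and every family `𝒢` with at most `κ⁺` restrictions to
every proper initial segment, there is a wide `κ⁺`-Aronszajn tree on which no member of `𝒢`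
captures the strictly increasing maps into `T`. -/
theorem exists_not_captured (hκ : ℵ₀ ≤ κ) (T : Type u) [PartialOrder T] (t0 : T)
    (Small : Set T → Prop) (hno : NoNarrow (Lam κ) T Small) (I : Type u) (hI : #I ≤ κ)
    (𝒢 : Set (Lam κ → I → Set T)) (hsmall : ∀ G ∈ 𝒢, ∀ a ξ, Small (G a ξ))
    (hfew : ∀ δ : Lam κ, #((fun (G : Lam κ → I → Set T) (a : Set.Iio δ) => G a) '' 𝒢) ≤
      Order.succ κ) :
    ∃ (S : Type u) (_ : PartialOrder S) (c : S → Lam κ), IsWideAronszajn (Order.succ κ) S ∧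
      Function.Injective c ∧ ∀ G ∈ 𝒢, ¬ Captures c G := by
  classical
  have H := lam_succLike hκ
  have hinf : ℵ₀ ≤ Order.succ κ := hκ.trans (Order.le_succ κ)
  have hN := card_nodes hκ (mk_lam κ).le 𝒢 hfew
  -- two disjoint copies of `κ⁺` in `κ⁺`
  have h2 : #(Lam κ ⊕ Lam κ) ≤ #(Lam κ) := by
    rw [mk_sum]
    simp only [lift_id]
    rw [mk_lam]
    exact (Cardinal.add_eq_self hinf).le
  obtain ⟨j⟩ : Nonempty (Lam κ ⊕ Lam κ ↪ Lam κ) := h2
  obtain ⟨i0⟩ : Nonempty (nodes 𝒢 ↪ Lam κ) := hN.trans (mk_lam κ).ge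
  let l0 : Lam κ := H.ne.some
  let ι : Lam κ × (Lam κ → (I → Set T)) → Lam κ := fun p =>
    if h : p ∈ nodes 𝒢 then j (Sum.inl (i0 ⟨p, h⟩)) else l0
  let S := HT (H.wf) l0 ι 𝒢
  have hS : TreeLike S := HT.treeLike
  have hSno : ¬ ∃ h : Lam κ → S, StrictMono h := HT.noChain H hI hsmall hno
  have hιinj : Function.Injective (fun p : S => ι p.1) := by
    intro p q hpq
    have h3 : j (Sum.inl (i0 ⟨p.1, p.mem_nodes⟩)) = j (Sum.inl (i0 ⟨q.1, q.mem_nodes⟩)) := by
      have hp : ι p.1 = j (Sum.inl (i0 ⟨p.1, p.mem_nodes⟩)) := dif_pos p.mem_nodes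
      have hq : ι q.1 = j (Sum.inl (i0 ⟨q.1, q.mem_nodes⟩)) := dif_pos q.mem_nodes
      rw [← hp, ← hq]
      exact hpq
    have h4 := i0.injective (Sum.inl_injective (j.injective h3))
    have h5 : p.1 = q.1 := Subtype.mk.inj h4
    exact Subtype.ext h5
  have hScard : #S ≤ Order.succ κ := (mk_le_of_injective hιinj).trans (mk_lam κ).le
  have hW := pad_wide hκ hS hScard hSno
  obtain ⟨ρ⟩ : Nonempty (Pad κ S ↪ Lam κ) := (pad_card hκ hScard).le.trans (mk_lam κ).ge
  let c : Pad κ S → Lam κ := fun x =>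
    if h : ∃ s : S, x = padIn κ s then ι h.choose.1 else j (Sum.inr (ρ x))
  have hc1 : ∀ s : S, c (padIn κ s) = ι s.1 := by
    intro s
    have hex : ∃ s' : S, padIn κ s = padIn κ s' := ⟨s, rfl⟩
    have h3 : c (padIn κ s) = ι hex.choose.1 := dif_pos hex
    rw [h3, ← padIn_injective hex.choose_spec]
  have hι : ∀ s : S, ∃ y, ι s.1 = j (Sum.inl y) := fun s => ⟨_, dif_pos s.mem_nodes⟩
  refine ⟨Pad κ S, inferInstance, c, hW, ?_, ?_⟩
  · intro x y hxy
    by_cases hx : ∃ s : S, x = padIn κ s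
    · obtain ⟨s, rfl⟩ := hx
      rw [hc1 s] at hxy
      by_cases hy : ∃ s : S, y = padIn κ s
      · obtain ⟨s', rfl⟩ := hy
        rw [hc1 s'] at hxy
        rw [hιinj hxy]
      · obtain ⟨z, hz⟩ := hι s
        have h3 : c y = j (Sum.inr (ρ y)) := dif_neg hy
        rw [hz, h3] at hxy
        exact absurd (j.injective hxy) (by simp)
    · have h3 : c x = j (Sum.inr (ρ x)) := dif_neg hx
      rw [h3] at hxy
      by_cases hy : ∃ s : S, y = padIn κ s
      · obtain ⟨s', rfl⟩ := hy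
        obtain ⟨z, hz⟩ := hι s'
        rw [hc1 s', hz] at hxy
        exact absurd (j.injective hxy) (by simp)
      · have h4 : c y = j (Sum.inr (ρ y)) := dif_neg hy
        rw [h4] at hxy
        exact ρ.injective (Sum.inr_injective (j.injective hxy))
  · rintro G hG ⟨h3, h4⟩
    refine HT.notCaptured (hw := H.wf) (l0 := l0) (ι := ι) (𝒢 := 𝒢) H t0 hI hsmall hno G hG
      ⟨fun s => ?_, fun ξ => ?_⟩
    · have := h3 (padIn κ s)
      rwa [hc1 s] at this
    · obtain ⟨g, hg1, hg2⟩ := h4 ξ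
      refine ⟨fun s => g (padIn κ s), fun s hs => ?_, fun s s' hss hs hs' => ?_⟩
      · have := hg1 (padIn κ s)
        rw [hc1 s] at this
        exact this hs
      · refine hg2 _ _ (padIn_lt hss) ?_ ?_
        · rw [hc1 s]; exact hs
        · rw [hc1 s']; exact hs'

end Pool.Agent.Helper599
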