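import Pool.Agent.Helper599_WA.Gen

/-!
# Names for a poset whose square satisfies the `κ⁺`-chain condition
-/

universe u

open Cardinal Set

namespace Pool.Agent.Helper599

/-- Two conditions are *compatible* if they have a common extension. -/
def Compat {Q : Type u} [Preorder Q] (p q : Q) : Prop := ∃ r, r ≤ p ∧ r ≤ q

/-- The poset `Q` satisfies the `κ⁺`-*chain condition*: every set of pairwise incompatible
conditions has size at most `κ`. -/
def ChainCondition (κ : Cardinal.{u}) (Q : Type u) [Preorder Q] : Prop :=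
  ∀ A : Set Q, (∀ p ∈ A, ∀ q ∈ A, p ≠ q → ¬ Compat p q) → #A ≤ κ

section cc

variable {κ : Cardinal.{u}} {Q : Type u} [Preorder Q]

theorem ChainCondition.noSeq (hQ : ChainCondition κ Q) (H : SuccLike κ (Lam κ)) :
    ¬ ∃ q : Lam κ → Q, ∀ i j, i < j → ¬ Compat (q i) (q j) := by
  rintro ⟨q, hq⟩
  have hinj : Function.Injective q := by
    intro i j hij
    rcases lt_trichotomy i j with h | h | h
    · exact absurd ⟨q i, le_rfl, by rw [hij]⟩ (hq i j h)
    · exact h
    · exact absurd ⟨q j, le_rfl, by rw [hij]⟩ (hq j i h)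
  have h1 := hQ (Set.range q) (by
    rintro _ ⟨i, rfl⟩ _ ⟨j, rfl⟩ hne hc
    rcases lt_trichotomy i j with h | h | h
    · exact hq i j h hc
    · exact hne (by rw [h])
    · obtain ⟨r, hr1, hr2⟩ := hc
      exact hq j i h ⟨r, hr2, hr1⟩)
  rw [mk_range_eq q hinj, mk_lam] at h1
  exact absurd h1 (not_le.mpr (Order.lt_succ κ))

theorem ChainCondition.of_prod (hQ : ChainCondition κ (Q × Q)) : ChainCondition κ Q := by
  intro A hA
  have h1 := hQ ((fun q => (q, q)) '' A) (by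
    rintro _ ⟨p, hp, rfl⟩ _ ⟨q, hq, rfl⟩ hne ⟨r, hr1, hr2⟩
    refine hA p hp q hq (fun h => hne (by rw [h])) ⟨r.1, hr1.1, hr2.1⟩)
  rwa [mk_image_eq (fun p q h => congrArg Prod.fst h)] at h1

/-- An unbounded set contains a sequence which is increasing and jumps over a given function. -/
theorem exJump {L : Type u} [LinearOrder L] (H : SuccLike κ L) (J : Set L)
    (hJ : ∀ b, ∃ i ∈ J, b < i) (b : L → L) :
    ∃ e : L → L, StrictMono e ∧ (∀ i, e i ∈ J) ∧ ∀ k i, k < i → b (e k) < e i := by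
  have hwf := H.wf
  have step : ∀ (i : L) (r : ∀ j, j < i → L),
      ∃ x ∈ J, ∀ j (hj : j < i), r j hj < x ∧ b (r j hj) < x := by
    intro i r
    obtain ⟨b1, hb1⟩ := H.bddR (H.small i) (fun j : Set.Iio i => r j.1 j.2)
    obtain ⟨b2, hb2⟩ := H.bddR (H.small i) (fun j : Set.Iio i => b (r j.1 j.2))
    obtain ⟨x, hx, hbx⟩ := hJ (max b1 b2)
    exact ⟨x, hx, fun j hj =>
      ⟨lt_trans (hb1 ⟨j, hj⟩) (lt_of_le_of_lt (le_max_left _ _) hbx),
        lt_trans (hb2 ⟨j, hj⟩) (lt_of_le_of_lt (le_max_right _ _) hbx)⟩⟩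
  choose F hF1 hF2 using step
  let e : L → L := (wellFounded_lt (α := L)).fix F
  have he : ∀ i, e i = F i (fun j _ => e j) := fun i => WellFounded.fix_eq _ _ _
  refine ⟨e, fun j i hji => ?_, fun i => ?_, fun j i hji => ?_⟩
  · rw [he i]
    exact (hF2 i (fun j _ => e j) j hji).1
  · rw [he i]
    exact hF1 i _
  · have h1 := (hF2 i (fun j _ => e j) j hji).2
    rw [← he i] at h1
    exact h1

/-- If the square of `Q` satisfies the `κ⁺`-chain condition and the tree `T` has no chain of type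
`κ⁺`, then there is no sequence of `κ⁺` conditions with decisions which are increasing for
compatible conditions. -/
theorem noLinked (H : SuccLike κ (Lam κ)) (hQ : ChainCondition κ (Q × Q)) {T : Type u}
    [PartialOrder T] (hT : TreeLike T) (hno : ¬ ∃ h : Lam κ → T, StrictMono h) :
    ¬ ∃ x : Lam κ → Q × T, ∀ j k, j < k → Compat (x j).1 (x k).1 → (x j).2 < (x k).2 := by
  classical
  rintro ⟨x, hx⟩
  have hwf := H.wf
  haveI := H.ne
  have hQ1 := hQ.of_prod
  -- unboundedly many decisions with the same value give an antichain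
  have hval : ∀ (J : Set (Lam κ)) (_ : ∀ b, ∃ i ∈ J, b < i) (t : T),
      ¬ ∀ i ∈ J, (x i).2 = t := by
    intro J hJ t ht
    obtain ⟨e, he, heJ⟩ := exEnum H J hJ
    refine hQ1.noSeq H ⟨fun i => (x (e i)).1, fun i j hij hc => ?_⟩
    have h1 := hx _ _ (he hij) hc
    rw [ht _ (heJ i), ht _ (heJ j)] at h1
    exact lt_irrefl _ h1
  -- a condition below which unboundedly many conditions are met densely
  have hstar : ∃ q0 : Q, ∀ r ≤ q0, ∀ b, ∃ j, b < j ∧ ∃ r' ≤ r, r' ≤ (x j).1 := by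
    by_contra hcon
    push Not at hcon
    choose r hr b hb using hcon
    obtain ⟨e, he, -, heb⟩ := exJump H Set.univ (fun c => by
      obtain ⟨i, hi⟩ := H.exGt c
      exact ⟨i, Set.mem_univ _, hi⟩) (fun j => b (x j).1)
    refine hQ1.noSeq H ⟨fun i => r (x (e i)).1, fun k i hki hc => ?_⟩
    obtain ⟨r', h1, h2⟩ := hc
    exact hb _ (e i) (heb k i hki) r' h1 (h2.trans (hr _))
  obtain ⟨q0, hq0⟩ := hstar
  -- below every condition there are two incompatible decisions
  have hsplit : ∀ r ≤ q0, ∃ p p' : Q, ∃ k k' : Lam κ, p ≤ r ∧ p' ≤ r ∧ p ≤ (x k).1 ∧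
      p' ≤ (x k').1 ∧ ¬ (x k).2 ≤ (x k').2 ∧ ¬ (x k').2 ≤ (x k).2 := by
    intro r hr
    by_contra hcon
    push Not at hcon
    let K : Set (Lam κ) := {k | ∃ p ≤ r, p ≤ (x k).1}
    have hK : ∀ b, ∃ i ∈ K, b < i := by
      intro b
      obtain ⟨j, hj, r', h1, h2⟩ := hq0 r hr b
      exact ⟨j, ⟨r', h1, h2⟩, hj⟩
    have hcomp : ∀ k ∈ K, ∀ k' ∈ K, (x k).2 ≤ (x k').2 ∨ (x k').2 ≤ (x k).2 := by
      rintro k ⟨p, hp, hp'⟩ k' ⟨p1, hp1, hp1'⟩
      by_cases h : (x k).2 ≤ (x k').2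
      · exact Or.inl h
      · exact Or.inr (hcon p p1 k k' hp hp1 hp' hp1' h)
    -- small elements are attained boundedly often
    have hb : ∀ k ∈ K, ∃ b, ∀ k' ∈ K, b < k' → (x k).2 < (x k').2 := by
      intro k hk
      by_contra hcon2
      push Not at hcon2
      let J : Set (Lam κ) := {k' | k' ∈ K ∧ (x k').2 ≤ (x k).2}
      have hJ : ∀ b, ∃ i ∈ J, b < i := by
        intro b
        obtain ⟨k', hk', hbk, hn⟩ := hcon2 b
        refine ⟨k', ⟨hk', ?_⟩, hbk⟩
        rcases hcomp k hk k' hk' with h | h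
        · rcases h.eq_or_lt with h | h
          · exact h.ge
          · exact absurd h hn
        · exact h
      -- the set of elements below a fixed one has size at most `κ`
      have hsz : #(Set.Iic (x k).2) ≤ κ := by
        obtain ⟨ht, g1, g2, g3, g4⟩ := exHt (L := Lam κ) hT H.wf hno
        obtain ⟨c, hc⟩ := H.exGt (ht (x k).2)
        have hinj : Function.Injective (fun t : Set.Iic (x k).2 =>
            (⟨ht t.1, by
              rcases (Set.mem_Iic.mp t.2).eq_or_lt with h | h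
              · change ht t.1 < c
                rw [h]; exact hc
              · exact lt_trans (g1 _ _ h) hc⟩ : Set.Iio c)) := by
          intro t t' h
          exact Subtype.ext (g3 _ _ _ t.2 t'.2 (congrArg Subtype.val h))
        exact (mk_le_of_injective hinj).trans (H.small c)
      let f : Lam κ → Set.Iic (x k).2 := fun k' =>
        if h : (x k').2 ≤ (x k).2 then ⟨(x k').2, h⟩ else ⟨(x k).2, le_rfl⟩
      obtain ⟨d, hd⟩ := H.pigeon hsz J hJ f
      refine hval {k' | k' ∈ J ∧ f k' = d} (fun b => ?_) d.1 ?_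
      · obtain ⟨i, hi, hbi, hfi⟩ := hd b
        exact ⟨i, ⟨hi, hfi⟩, hbi⟩
      · rintro i ⟨hi, hfi⟩
        have h1 : f i = ⟨(x i).2, hi.2⟩ := dif_pos hi.2
        rw [← hfi, h1]
    choose! b hb using hb
    obtain ⟨e, he, heK, heb⟩ := exJump H K hK b
    exact hno ⟨fun i => (x (e i)).2, fun i j hij =>
      hb _ (heK i) _ (heK j) (heb i j hij)⟩
  -- the antichain in the square
  have hall : ∀ a : Lam κ, ∃ (j : Lam κ) (r p p' : Q) (k k' : Lam κ), a < j ∧ r ≤ (x j).1 ∧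
      p ≤ r ∧ p' ≤ r ∧ p ≤ (x k).1 ∧ p' ≤ (x k').1 ∧
      ¬ (x k).2 ≤ (x k').2 ∧ ¬ (x k').2 ≤ (x k).2 := by
    intro a
    obtain ⟨j, hj, r, hr, hr'⟩ := hq0 q0 le_rfl a
    obtain ⟨p, p', k, k', h⟩ := hsplit r hr
    exact ⟨j, r, p, p', k, k', hj, hr', h⟩
  choose j r p p' k k' h1 h2 h3 h4 h5 h6 h7 h8 using hall
  obtain ⟨e, he, -, heb⟩ := exJump H Set.univ (fun c => by
      obtain ⟨i, hi⟩ := H.exGt c
      exact ⟨i, Set.mem_univ _, hi⟩) (fun a => max (k a) (k' a))
  refine hQ.noSeq H ⟨fun i => (p (e i), p' (e i)), fun a i hai hc => ?_⟩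
  obtain ⟨⟨w, w'⟩, hw1, hw2⟩ := hc
  have hw1a : w ≤ p (e a) := hw1.1
  have hw1b : w' ≤ p' (e a) := hw1.2
  have hw2a : w ≤ p (e i) := hw2.1
  have hw2b : w' ≤ p' (e i) := hw2.2
  have hk : k (e a) < j (e i) :=
    lt_trans (lt_of_le_of_lt (le_max_left _ _) (heb a i hai)) (h1 _)
  have hk' : k' (e a) < j (e i) :=
    lt_trans (lt_of_le_of_lt (le_max_right _ _) (heb a i hai)) (h1 _)
  have c1 : (x (k (e a))).2 < (x (j (e i))).2 := by
    refine hx _ _ hk ⟨w, hw1a.trans (h5 _), hw2a.trans ((h3 _).trans (h2 _))⟩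
  have c2 : (x (k' (e a))).2 < (x (j (e i))).2 := by
    refine hx _ _ hk' ⟨w', hw1b.trans (h6 _), hw2b.trans ((h4 _).trans (h2 _))⟩
  rcases hT.comp _ _ _ c1.le c2.le with h | h
  · exact h7 _ h
  · exact h8 _ h

end cc

section thm

variable {κ : Cardinal.{u}}

theorem exists_not_named (hκ : ℵ₀ ≤ κ) (T : Type u) [PartialOrder T] (t0 : T)
    (hT : TreeLike T) (hno : ¬ ∃ h : Lam κ → T, StrictMono h) (Q : Type u) [Preorder Q] (q0 : Q)
    (hQ : ChainCondition κ (Q × Q)) (𝒢 : Set (Lam κ → Q × T))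
    (hfew : ∀ δ : Lam κ, #((fun (G : Lam κ → Q × T) (a : Set.Iio δ) => G a) '' 𝒢) ≤
      Order.succ κ) :
    ∃ (S : Type u) (_ : PartialOrder S) (c : S → Lam κ), IsWideAronszajn (Order.succ κ) S ∧
      Function.Injective c ∧ ∀ G ∈ 𝒢, ¬ ∀ s s' : S, s < s' →
        Compat (G (c s)).1 (G (c s')).1 → (G (c s)).2 < (G (c s')).2 := by
  have H := lam_succLike hκ
  let R : Lam κ → (Lam κ → Q × T) → Prop := fun i x =>
    ∀ j k, j < k → k < i → Compat (x j).1 (x k).1 → (x j).2 < (x k).2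
  obtain ⟨S, hS, c, h1, h2, h3⟩ := exists_general hκ (Q × T) (q0, t0) R
    (fun i x h j k hjk hk => absurd hk (h k))
    (fun i x y hxy h j k hjk hk hc => by
      rw [← hxy j (hjk.trans hk), ← hxy k hk] at hc ⊢
      exact h j k hjk hk hc)
    (fun i i' x hii h j k hjk hk => h j k hjk (lt_of_lt_of_le hk hii))
    (by
      rintro ⟨x, hx⟩
      refine noLinked H hQ hT hno ⟨x, fun j k hjk hc => ?_⟩
      obtain ⟨i, hi⟩ := H.exGt k
      exact hx i j k hjk hi hc)
    𝒢 hfew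
  refine ⟨S, hS, c, h1, h2, fun G hG hcon => h3 G hG (fun i P hP j k hjk hk hc => ?_)⟩
  exact hcon _ _ (hP j k hjk hk) hc

end thm

end Pool.Agent.Helper599
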