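import Pool.Agent.Helper599_WA.Defs
import Pool.Agent.Helper599_WA.Hist

/-!
# From tree-like orders without long chains to wide Aronszajn trees, and back
-/

universe u

open Cardinal Set

namespace Pool.Agent.Helper599

section back

variable {T : Type u} [PartialOrder T]

theorem IsTree.treeLike (hT : IsTree T) : TreeLike T where
  wf := by
    refine ⟨⟨fun t => ?_⟩⟩
    have h1 := hT.2 t
    have key : ∀ s : Set.Iio t, Acc (· < ·) s.1 := by
      intro s
      induction s using h1.wf.induction with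
      | _ s ih =>
        refine Acc.intro _ (fun y hy => ?_)
        exact ih ⟨y, lt_trans hy s.2⟩ hy
    exact Acc.intro _ (fun y hy => key ⟨y, hy⟩)
  comp t a b ha hb := by
    have h1 := hT.2 t
    rcases ha.eq_or_lt with rfl | ha
    · exact Or.inr hb
    rcases hb.eq_or_lt with rfl | hb
    · exact Or.inl ha.le
    rcases trichotomous_of (r := ((· < ·) : Set.Iio t → Set.Iio t → Prop)) ⟨a, ha⟩ ⟨b, hb⟩ with
      h | h | h
    · exact Or.inl (le_of_lt h)
    · exact Or.inl (congrArg Subtype.val h).le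
    · exact Or.inr (le_of_lt h)

theorem TreeLike.isTree (hT : TreeLike T) (hr : ∃ r : T, ∀ t, r ≤ t) : IsTree T := by
  refine ⟨hr, fun t => ?_⟩
  haveI := hT.wf
  haveI : Std.Trichotomous ((· < ·) : Set.Iio t → Set.Iio t → Prop) := ⟨fun a b hab hba => by
    rcases hT.comp t a.1 b.1 (le_of_lt a.2) (le_of_lt b.2) with h | h
    · rcases h.eq_or_lt with h | h
      · exact Subtype.ext h
      · exact absurd h hab
    · rcases h.eq_or_lt with h | h
      · exact (Subtype.ext h).symm
      · exact absurd h hba⟩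
  exact { wf := (wellFounded_lt (α := Set.Iio t)) }

/-- heights are ranks -/
theorem hasHeight_rk (hT : TreeLike T) (t : T) : HasHeight t (rk hT t) := by
  let f : Set.Iio t → Set.Iio (rk hT t) := fun s => ⟨rk hT s.1, rk_lt hT s.2⟩
  have hf : Function.Bijective f := by
    refine ⟨fun s s' h => ?_, fun o => ?_⟩
    · exact Subtype.ext (rk_inj hT (le_of_lt s.2) (le_of_lt s'.2) (congrArg Subtype.val h))
    · obtain ⟨s, hs, hso⟩ := rk_ex hT t o.1 o.2
      exact ⟨⟨s, hs⟩, Subtype.ext hso⟩
  let e1 : Set.Iio t ≃o Set.Iio (rk hT t) :=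
    { toEquiv := Equiv.ofBijective f hf
      map_rel_iff' := by
        intro s s'
        change rk hT s.1 ≤ rk hT s'.1 ↔ s.1 ≤ s'.1
        refine ⟨fun h => ?_, fun h => rk_le hT h⟩
        rcases hT.comp t s.1 s'.1 (le_of_lt s.2) (le_of_lt s'.2) with h1 | h1
        · exact h1
        · exact (rk_inj hT (le_of_lt s.2) (le_of_lt s'.2) (le_antisymm h (rk_le hT h1))).le }
  exact ⟨e1.trans Ordinal.ToType.mk⟩

theorem HasHeight.eq_rk (hT : TreeLike T) {t : T} {α : Ordinal.{u}} (h : HasHeight t α) :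
    α = rk hT t := by
  obtain ⟨e⟩ := h
  obtain ⟨e'⟩ := hasHeight_rk hT t
  have h1 := (e.symm.trans e').toRelIsoLT.ordinalType_congr
  rwa [Ordinal.type_toType, Ordinal.type_toType] at h1

theorem IsWideAronszajn.noChain {μ : Cardinal.{u}} (hT : IsWideAronszajn μ T) :
    ¬ ∃ h : μ.ord.ToType → T, StrictMono h := by
  rintro ⟨h, hh⟩
  refine hT.2.2.2 (Set.range h) ?_ ⟨(hh.orderIso h).symm⟩
  rintro _ ⟨i, rfl⟩ _ ⟨j, rfl⟩ -
  exact (le_total i j).imp (fun h' => hh.monotone h') (fun h' => hh.monotone h')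

end back

section ops

theorem TreeLike.sum {A B : Type u} [PartialOrder A] [PartialOrder B] (hA : TreeLike A)
    (hB : TreeLike B) : TreeLike (A ⊕ B) where
  wf := by
    have hl : ∀ a : A, Acc (· < ·) (Sum.inl a : A ⊕ B) := by
      intro a
      induction a using hA.wf.wf.induction with
      | _ a ih =>
        refine Acc.intro _ (fun y hy => ?_)
        rcases y with y | y
        · exact ih y (Sum.inl_lt_inl_iff.mp hy)
        · exact absurd hy Sum.not_inr_lt_inl
    have hr : ∀ b : B, Acc (· < ·) (Sum.inr b : A ⊕ B) := by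
      intro b
      induction b using hB.wf.wf.induction with
      | _ b ih =>
        refine Acc.intro _ (fun y hy => ?_)
        rcases y with y | y
        · exact absurd hy Sum.not_inl_lt_inr
        · exact ih y (Sum.inr_lt_inr_iff.mp hy)
    exact ⟨⟨fun x => by rcases x with x | x; exacts [hl x, hr x]⟩⟩
  comp := by
    rintro (t | t) (a | a) (b | b) ha hb
    · simp only [Sum.inl_le_inl_iff] at *
      exact hA.comp t a b ha hb
    · exact absurd hb Sum.not_inr_le_inl
    · exact absurd ha Sum.not_inr_le_inl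
    · exact absurd ha Sum.not_inr_le_inl
    · exact absurd ha Sum.not_inl_le_inr
    · exact absurd ha Sum.not_inl_le_inr
    · exact absurd hb Sum.not_inl_le_inr
    · simp only [Sum.inr_le_inr_iff] at *
      exact hB.comp t a b ha hb

theorem TreeLike.sigma {J : Type u} {A : J → Type u} [∀ j, PartialOrder (A j)]
    (hA : ∀ j, TreeLike (A j)) : TreeLike (Σ j, A j) where
  wf := by
    have hl : ∀ (j : J) (a : A j), Acc (· < ·) (⟨j, a⟩ : Σ j, A j) := by
      intro j a
      induction a using (hA j).wf.wf.induction with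
      | _ a ih =>
        refine Acc.intro _ (fun y hy => ?_)
        obtain ⟨j', y⟩ := y
        rw [Sigma.lt_def] at hy
        obtain ⟨h, hy⟩ := hy
        dsimp only at h
        subst h
        exact ih y hy
    exact ⟨⟨fun x => hl x.1 x.2⟩⟩
  comp := by
    rintro ⟨j, t⟩ ⟨ja, a⟩ ⟨jb, b⟩ ha hb
    rw [Sigma.le_def] at ha hb
    obtain ⟨h1, ha⟩ := ha
    obtain ⟨h2, hb⟩ := hb
    dsimp only at h1 h2
    subst h1
    subst h2
    rcases (hA _).comp t a b ha hb with h | h
    · exact Or.inl (Sigma.le_def.mpr ⟨rfl, h⟩)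
    · exact Or.inr (Sigma.le_def.mpr ⟨rfl, h⟩)

theorem TreeLike.withBot {A : Type u} [PartialOrder A] (hA : TreeLike A) :
    TreeLike (WithBot A) where
  wf := by
    haveI := hA.wf
    infer_instance
  comp := by
    intro t a b ha hb
    induction a with
    | bot => exact Or.inl bot_le
    | coe a =>
      induction b with
      | bot => exact Or.inr bot_le
      | coe b =>
        induction t with
        | bot => exact absurd ha (by simp)
        | coe t =>
          simp only [WithBot.coe_le_coe] at *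
          exact hA.comp t a b ha hb

theorem TreeLike.iio {L : Type u} [LinearOrder L] (hw : WellFoundedLT L) (i : L) :
    TreeLike (Set.Iio i) where
  wf := by infer_instance
  comp t a b _ _ := le_total a b

end ops

section pad

variable {κ : Cardinal.{u}}

/-- `κ⁺` as a well-order -/
abbrev Lam (κ : Cardinal.{u}) : Type u := (Order.succ κ).ord.ToType

theorem lam_succLike (hκ : ℵ₀ ≤ κ) : SuccLike κ (Lam κ) where
  inf := hκ
  wf := inferInstance
  ne := by
    rw [Ordinal.nonempty_toType_iff, Ne, Cardinal.ord_eq_zero]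
    exact (lt_of_lt_of_le (lt_of_lt_of_le aleph0_pos hκ) (Order.le_succ κ)).ne'
  small i := Order.lt_succ_iff.mp (mk_Iio_toType_ord_lt i)
  bdd X hX := by
    have hreg := isRegular_succ hκ
    by_contra hcon
    push Not at hcon
    have h1 : Order.cof (Lam κ) ≤ #X := Order.cof_le (fun b => hcon b)
    rw [Ordinal.cof_toType, hreg.cof_ord] at h1
    exact absurd (h1.trans hX) (not_le.mpr (Order.lt_succ κ))

theorem mk_lam (κ : Cardinal.{u}) : #(Lam κ) = Order.succ κ := by simp

/-- adding disjoint chains of all lengths smaller than `κ⁺`, and a least element -/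
abbrev Pad (κ : Cardinal.{u}) (S : Type u) : Type u := WithBot (S ⊕ Σ γ : Lam κ, Set.Iio γ)

/-- the embedding of the given order -/
def padIn (κ : Cardinal.{u}) {S : Type u} (s : S) : Pad κ S := WithBot.some (Sum.inl s)

theorem padIn_lt {S : Type u} [PartialOrder S] {s s' : S} (h : s < s') :
    (padIn κ s : Pad κ S) < padIn κ s' :=
  WithBot.coe_lt_coe.mpr (Sum.inl_lt_inl_iff.mpr h)

theorem pad_treeLike {S : Type u} [PartialOrder S] (hS : TreeLike S) : TreeLike (Pad κ S) :=
  (hS.sum (TreeLike.sigma (fun γ => TreeLike.iio inferInstance γ))).withBot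

theorem pad_noChain (hκ : ℵ₀ ≤ κ) {S : Type u} [PartialOrder S]
    (hno : ¬ ∃ h : Lam κ → S, StrictMono h) : ¬ ∃ h : Lam κ → Pad κ S, StrictMono h := by
  rintro ⟨h, hh⟩
  have H := lam_succLike hκ
  haveI := H.ne
  -- a strictly increasing self-map whose values are not the least element
  obtain ⟨e, he, he'⟩ := exEnum H {i | ∃ j, j < i} (fun b => by
    obtain ⟨i, hi⟩ := H.exGt b
    exact ⟨i, ⟨b, hi⟩, hi⟩)
  have h1 : ∀ i, ∃ x : S ⊕ (Σ γ : Lam κ, Set.Iio γ), h (e i) = (x : WithBot _) := by
    intro i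
    obtain ⟨j, hj⟩ := he' i
    have h2 : h j < h (e i) := hh hj
    have h3 : h (e i) ≠ ⊥ := (lt_of_le_of_lt bot_le h2).ne'
    obtain ⟨x, hx⟩ := WithBot.ne_bot_iff_exists.mp h3
    exact ⟨x, hx.symm⟩
  choose x hx using h1
  have hxm : StrictMono x := by
    intro i j hij
    have h2 := hh (he hij)
    rw [hx i, hx j] at h2
    exact WithBot.coe_lt_coe.mp h2
  let i0 : Lam κ := H.ne.some
  obtain ⟨nx, hnx⟩ := exEnum H {i | i0 < i} (fun b => by
    obtain ⟨i, hi⟩ := H.exGt2 i0 b
    exact ⟨i, hi.1, hi.2⟩)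
  rcases hx0 : x i0 with s | ⟨γ, y⟩
  · have h2 : ∀ i, ∃ s' : S, x (nx i) = Sum.inl s' := by
      intro i
      have h3 := hxm (hnx.2 i)
      rw [hx0] at h3
      rcases hxi : x (nx i) with s' | q
      · exact ⟨s', rfl⟩
      · rw [hxi] at h3
        exact absurd h3 Sum.not_inl_lt_inr
    choose t ht using h2
    refine hno ⟨t, fun i j hij => ?_⟩
    have h3 := hxm (hnx.1 hij)
    rw [ht i, ht j] at h3
    exact Sum.inl_lt_inl_iff.mp h3
  · have h2 : ∀ i, ∃ y' : Set.Iio γ, x (nx i) = Sum.inr ⟨γ, y'⟩ := by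
      intro i
      have h3 := hxm (hnx.2 i)
      rw [hx0] at h3
      rcases hxi : x (nx i) with s' | ⟨γ', y'⟩
      · rw [hxi] at h3
        exact absurd h3 Sum.not_inr_lt_inl
      · rw [hxi] at h3
        have h4 := Sum.inr_lt_inr_iff.mp h3
        rw [Sigma.lt_def] at h4
        obtain ⟨h5, -⟩ := h4
        dsimp only at h5
        subst h5
        exact ⟨y', rfl⟩
    choose y' hy' using h2
    have h3 : Function.Injective y' := by
      intro i j hij
      have h4 : x (nx i) = x (nx j) := by rw [hy' i, hy' j, hij]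
      exact hnx.1.injective (hxm.injective h4)
    have h4 := mk_le_of_injective h3
    rw [mk_lam] at h4
    exact absurd (h4.trans (H.small γ)) (not_le.mpr (Order.lt_succ κ))

theorem pad_card (hκ : ℵ₀ ≤ κ) {S : Type u} (hS : #S ≤ Order.succ κ) :
    #(Pad κ S) = Order.succ κ := by
  have H := lam_succLike hκ
  have hinf : ℵ₀ ≤ Order.succ κ := hκ.trans (Order.le_succ κ)
  have h1 : #(Σ γ : Lam κ, Set.Iio γ) ≤ Order.succ κ := by
    rw [mk_sigma]
    calc Cardinal.sum (fun γ : Lam κ => #(Set.Iio γ))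
        ≤ Cardinal.sum (fun _ : Lam κ => Order.succ κ) :=
          Cardinal.sum_le_sum _ _ (fun γ => (H.small γ).trans (Order.le_succ κ))
      _ = #(Lam κ) * Order.succ κ := by simp
      _ = Order.succ κ * Order.succ κ := by rw [mk_lam]
      _ = Order.succ κ := Cardinal.mul_eq_self hinf
  have h2 : #(S ⊕ Σ γ : Lam κ, Set.Iio γ) ≤ Order.succ κ := by
    rw [mk_sum]
    simp only [lift_id]
    exact (add_le_add hS h1).trans (Cardinal.add_eq_self hinf).le
  apply le_antisymm
  · have h3 : #(Pad κ S) = #(Option (S ⊕ Σ γ : Lam κ, Set.Iio γ)) := rfl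
    rw [h3, mk_option]
    exact (add_le_add h2 (one_le_aleph0.trans hinf)).trans (Cardinal.add_eq_self hinf).le
  · choose nx hnx using H.exGt
    have h3 : Function.Injective (fun i : Lam κ => (WithBot.some (Sum.inr ⟨nx i, ⟨i, hnx i⟩⟩) :
        Pad κ S)) := by
      intro i j hij
      have h4 := Sum.inr_injective (WithBot.coe_injective hij)
      have h5 : ∀ q q' : (Σ γ : Lam κ, Set.Iio γ), q = q' → (q.2 : Lam κ) = q'.2 := by
        rintro q q' rfl; rfl
      exact h5 _ _ h4
    have h4 := mk_le_of_injective h3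
    rwa [mk_lam] at h4

/-- `Pad κ S` is a wide `κ⁺`-Aronszajn tree. -/
theorem pad_wide (hκ : ℵ₀ ≤ κ) {S : Type u} [PartialOrder S] (hS : TreeLike S)
    (hcard : #S ≤ Order.succ κ) (hno : ¬ ∃ h : Lam κ → S, StrictMono h) :
    IsWideAronszajn (Order.succ κ) (Pad κ S) := by
  have H := lam_succLike hκ
  have hP := pad_treeLike (κ := κ) hS
  have hC := pad_noChain hκ hno
  refine ⟨hP.isTree ⟨⊥, fun _ => bot_le⟩, ⟨?_, ?_⟩, pad_card hκ hcard, ?_⟩
  · intro t ht
    have h1 := ht.eq_rk hP
    have h2 := rk_lt_type (L := Lam κ) hP hC t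
    rw [Ordinal.type_toType, ← h1] at h2
    exact lt_irrefl _ h2
  · intro α hα
    by_contra hcon
    rw [not_le] at hcon
    -- an element of rank at least `α`
    let i : Lam κ := Ordinal.ToType.mk ⟨α, hcon⟩
    obtain ⟨γ, hγ⟩ := H.exGt i
    let φ : Set.Iio γ → Pad κ S := fun y => WithBot.some (Sum.inr ⟨γ, y⟩)
    have hφ : StrictMono φ := by
      intro y y' hyy
      refine WithBot.coe_lt_coe.mpr (Sum.inr_lt_inr_iff.mpr ?_)
      exact Sigma.lt_def.mpr ⟨rfl, hyy⟩
    have hle : ∀ y : Set.Iio γ, Ordinal.typein (α := Lam κ) (· < ·) y.1 ≤ rk hP (φ y) := by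
      intro y
      induction y using (wellFounded_lt (α := Set.Iio γ)).induction with
      | _ y ih =>
        by_contra hc
        rw [not_le] at hc
        obtain ⟨z, hz⟩ := Ordinal.typein_surj (α := Lam κ) (· < ·)
          (hc.trans (Ordinal.typein_lt_type _ y.1))
        rw [← hz] at hc
        have hzy : z < y.1 := (Ordinal.typein_lt_typein (α := Lam κ) (· < ·)).mp hc
        have h5 := ih ⟨z, lt_trans hzy y.2⟩ hzy
        have h6 : rk hP (φ ⟨z, lt_trans hzy y.2⟩) < rk hP (φ y) := rk_lt hP (hφ hzy)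
        rw [← hz] at h6
        exact absurd h5 (not_le.mpr h6)
    have h7 := hle ⟨i, hγ⟩
    have h8 : Ordinal.typein (α := Lam κ) (· < ·) i = α :=
      congrArg Subtype.val (Ordinal.ToType.mk.symm_apply_apply
        (⟨α, hcon⟩ : Set.Iio (Order.succ κ).ord))
    rw [h8] at h7
    -- an element of rank `α`
    rcases h7.eq_or_lt with h9 | h9
    · exact hα (φ ⟨i, hγ⟩) (h9 ▸ hasHeight_rk hP _)
    · obtain ⟨s, -, hs⟩ := rk_ex hP _ _ h9
      exact hα s (hs ▸ hasHeight_rk hP s)
  · rintro B - ⟨e⟩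
    refine hC ⟨fun i => (e.symm i).1, fun i j hij => ?_⟩
    exact e.symm.strictMono hij

end pad

end Pool.Agent.Helper599
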