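import Pool.Agent.Helper599_WA.Kur

/-!
# Trees, heights, and chains through narrow families
-/

universe u

open Cardinal Set

namespace Pool.Agent.Helper599

/-- The strict order `<` is tree-like: well-founded, and the elements below a given one are
comparable. -/
structure TreeLike (T : Type u) [PartialOrder T] : Prop where
  wf : WellFoundedLT T
  comp : ∀ t a b : T, a ≤ t → b ≤ t → a ≤ b ∨ b ≤ a

section rank

variable {T : Type u} [PartialOrder T]

/-- the rank -/
noncomputable def rk (hT : TreeLike T) (t : T) : Ordinal.{u} :=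
  haveI := hT.wf
  IsWellFounded.rank (α := T) (· < ·) t

theorem rk_lt (hT : TreeLike T) {s t : T} (h : s < t) : rk hT s < rk hT t := by
  haveI := hT.wf
  exact IsWellFounded.rank_lt_of_rel (r := ((· < ·) : T → T → Prop)) h

theorem rk_le (hT : TreeLike T) {s t : T} (h : s ≤ t) : rk hT s ≤ rk hT t := by
  rcases h.eq_or_lt with rfl | h
  · exact le_rfl
  · exact (rk_lt hT h).le

theorem rk_ex (hT : TreeLike T) (t : T) (o : Ordinal.{u}) (ho : o < rk hT t) :
    ∃ s, s < t ∧ rk hT s = o := by
  haveI := hT.wf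
  induction t using hT.wf.wf.induction with
  | _ t ih =>
    have h1 : rk hT t = ⨆ b : { b // b < t }, Order.succ (rk hT b.1) :=
      IsWellFounded.rank_eq (α := T) (· < ·) t
    rw [h1, Ordinal.lt_iSup_iff] at ho
    obtain ⟨⟨b, hb⟩, ho⟩ := ho
    rw [Order.lt_succ_iff] at ho
    rcases ho.eq_or_lt with h | h
    · exact ⟨b, hb, h.symm⟩
    · obtain ⟨s, hs, hso⟩ := ih b hb h
      exact ⟨s, hs.trans hb, hso⟩

theorem rk_inj (hT : TreeLike T) {s s' t : T} (h : s ≤ t) (h' : s' ≤ t)
    (he : rk hT s = rk hT s') : s = s' := by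
  rcases hT.comp t s s' h h' with h1 | h1
  · rcases h1.eq_or_lt with h2 | h2
    · exact h2
    · exact absurd (rk_lt hT h2) (he ▸ lt_irrefl _)
  · rcases h1.eq_or_lt with h2 | h2
    · exact h2.symm
    · exact absurd (rk_lt hT h2) (he ▸ lt_irrefl _)

theorem lt_of_rk_lt (hT : TreeLike T) {s s' t : T} (h : s ≤ t) (h' : s' ≤ t)
    (he : rk hT s < rk hT s') : s < s' := by
  rcases hT.comp t s s' h h' with h1 | h1
  · rcases h1.eq_or_lt with h2 | h2
    · rw [h2] at he; exact absurd he (lt_irrefl _)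
    · exact h2
  · exact absurd (rk_le hT h1) (not_le.mpr he)

/-- Without chains of type `L`, all ranks are smaller than the type of `L`. -/
theorem rk_lt_type (hT : TreeLike T) {L : Type u} [LinearOrder L] [WellFoundedLT L]
    (hno : ¬ ∃ h : L → T, StrictMono h) (t : T) :
    rk hT t < Ordinal.type (α := L) (· < ·) := by
  by_contra hcon
  rw [not_lt] at hcon
  have h1 : ∀ i : L, ∃ s, s < t ∧ rk hT s = Ordinal.typein (α := L) (· < ·) i := fun i =>
    rk_ex hT t _ (lt_of_lt_of_le (Ordinal.typein_lt_type _ i) hcon)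
  choose h hlt hrk using h1
  refine hno ⟨h, fun i j hij => ?_⟩
  refine lt_of_rk_lt hT (hlt i).le (hlt j).le ?_
  rw [hrk, hrk]
  exact (Ordinal.typein_lt_typein (α := L) (· < ·)).mpr hij

end rank

section chain

variable {κ : Cardinal.{u}} {L : Type u} [LinearOrder L] {T : Type u} [PartialOrder T]

/-- A height function with values in `L`. -/
theorem exHt (hT : TreeLike T) (hw : WellFoundedLT L) (hno : ¬ ∃ h : L → T, StrictMono h) :
    ∃ ht : T → L, (∀ s t, s < t → ht s < ht t) ∧ (∀ t j, j ≤ ht t → ∃ s, s ≤ t ∧ ht s = j) ∧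
      (∀ s s' t, s ≤ t → s' ≤ t → ht s = ht s' → s = s') ∧
      (∀ s s' t, s ≤ t → s' ≤ t → ht s < ht s' → s < s') := by
  have h1 := rk_lt_type (L := L) hT hno
  let ht : T → L := fun t => Ordinal.enum (α := L) (· < ·) ⟨rk hT t, h1 t⟩
  have hht : ∀ t, Ordinal.typein (α := L) (· < ·) (ht t) = rk hT t := fun t =>
    Ordinal.typein_enum _ _
  have hlt : ∀ s t, ht s < ht t ↔ rk hT s < rk hT t := by
    intro s t
    rw [← hht s, ← hht t]
    exact (Ordinal.typein_lt_typein (α := L) (· < ·)).symm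
  have heq : ∀ s t, ht s = ht t ↔ rk hT s = rk hT t := by
    intro s t
    rw [← hht s, ← hht t]
    exact (Ordinal.typein_inj (α := L) (· < ·)).symm
  refine ⟨ht, fun s t hst => (hlt s t).mpr (rk_lt hT hst), ?_, ?_, ?_⟩
  · intro t j hj
    rcases hj.eq_or_lt with h | h
    · exact ⟨t, le_rfl, h.symm⟩
    · have h2 : Ordinal.typein (α := L) (· < ·) j < rk hT t := by
        rw [← hht t]
        exact (Ordinal.typein_lt_typein (α := L) (· < ·)).mpr h
      obtain ⟨s, hs, hs'⟩ := rk_ex hT t _ h2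
      refine ⟨s, hs.le, ?_⟩
      rw [← hht s] at hs'
      exact (Ordinal.typein_inj (α := L) (· < ·)).mp hs'
  · intro s s' t h h' he
    exact rk_inj hT h h' ((heq s s').mp he)
  · intro s s' t h h' he
    exact lt_of_rk_lt hT h h' ((hlt s s').mp he)

/-- A tree which has, for every `i`, a chain of type `i` through a fixed family of sets of
fewer than `κ` elements, has a chain of type `κ⁺`. -/
theorem narrowChain (H : SuccLike κ L) (hT : TreeLike T) (B : L → Set T)
    (hB : ∀ j, #(B j) < κ) (g : L → L → T)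
    (hg : ∀ i j j', j < j' → j' < i → g i j < g i j') (hgB : ∀ i j, j < i → g i j ∈ B j) :
    ∃ h : L → T, StrictMono h := by
  classical
  by_contra hno
  obtain ⟨ht, h1, h2, h3, h4⟩ := exHt (L := L) hT H.wf hno
  have hwf := H.wf
  let tr : T → L → T := fun t j => if h : j ≤ ht t then (h2 t j h).choose else t
  have tr1 : ∀ t j, j ≤ ht t → tr t j ≤ t ∧ ht (tr t j) = j := by
    intro t j hj
    simp only [tr, dif_pos hj]
    exact (h2 t j hj).choose_spec
  have hjle : ∀ i j, j < i → j ≤ ht (g i j) := by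
    intro i j
    induction j using H.wf.wf.induction with
    | _ j ih =>
      intro hji
      by_contra hcon
      rw [not_le] at hcon
      have h5 := ih _ hcon (hcon.trans hji)
      have h6 := h1 _ _ (hg i _ j hcon hji)
      exact absurd h5 (not_le.mpr h6)
  let c : L → L → T := fun i j => tr (g i j) j
  have hc1 : ∀ i j, j < i → c i j ≤ g i j ∧ ht (c i j) = j := fun i j hji =>
    tr1 _ _ (hjle i j hji)
  have hclt : ∀ i j j', j < j' → j' < i → c i j < c i j' := by
    intro i j j' hj hj'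
    have a1 := hc1 i j (hj.trans hj')
    have a2 := hc1 i j' hj'
    refine h4 _ _ (g i j') (a1.1.trans (hg i j j' hj hj').le) a2.1 ?_
    rw [a1.2, a2.2]
    exact hj
  have coh : ∀ i i' j j', j < j' → j' < i → j' < i' → c i j' = c i' j' → c i j = c i' j := by
    intro i i' j j' hj h5 h6 h7
    refine h3 _ _ (c i j') (hclt i j j' hj h5).le ?_ ?_
    · rw [h7]; exact (hclt i' j j' hj h6).le
    · rw [(hc1 i j (hj.trans h5)).2, (hc1 i' j (hj.trans h6)).2]
  obtain ⟨h, hh⟩ := kurepa H c coh (fun j => (fun t => tr t j) '' (B j))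
    (fun j => lt_of_le_of_lt mk_image_le (hB j)) (fun i j hji => ⟨g i j, hgB i j hji, rfl⟩)
  refine hno ⟨h, fun j j' hj => ?_⟩
  obtain ⟨i, -, h5, h6⟩ := hh j' j'
  rw [← h6 j hj.le, ← h6 j' le_rfl]
  exact hclt i j j' hj h5

/-- An unbounded subset of `L` contains the range of a strictly increasing map. -/
theorem exEnum (H : SuccLike κ L) (J : Set L) (hJ : ∀ b, ∃ i ∈ J, b < i) :
    ∃ e : L → L, StrictMono e ∧ ∀ i, e i ∈ J := by
  have hwf := H.wf
  have step : ∀ (i : L) (r : ∀ j, j < i → L), ∃ x ∈ J, ∀ j (hj : j < i), r j hj < x := by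
    intro i r
    obtain ⟨b, hb⟩ := H.bddR (H.small i) (fun j : Set.Iio i => r j.1 j.2)
    obtain ⟨x, hx, hbx⟩ := hJ b
    exact ⟨x, hx, fun j hj => lt_trans (hb ⟨j, hj⟩) hbx⟩
  choose F hF1 hF2 using step
  let e : L → L := (wellFounded_lt (α := L)).fix F
  have he : ∀ i, e i = F i (fun j _ => e j) := fun i => WellFounded.fix_eq _ _ _
  refine ⟨e, fun j i hji => ?_, fun i => ?_⟩
  · rw [he i]
    exact hF2 i (fun j _ => e j) j hji
  · rw [he i]
    exact hF1 i _

theorem le_of_strictMono (hw : WellFoundedLT L) (e : L → L) (he : StrictMono e) (i : L) :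
    i ≤ e i := by
  induction i using hw.wf.induction with
  | _ i ih =>
    by_contra hcon
    rw [not_le] at hcon
    have h1 := ih _ hcon
    exact absurd h1 (not_le.mpr (he hcon))

/-- The version in which the small sets are only given on an unbounded set of places. -/
theorem narrowChain' (H : SuccLike κ L) (hT : TreeLike T) (J : Set L)
    (hJ : ∀ b, ∃ i ∈ J, b < i) (B : L → Set T) (hB : ∀ j, #(B j) < κ) (g : L → L → T)
    (hg : ∀ i, ∀ j ∈ J, ∀ j' ∈ J, j < j' → j' < i → g i j < g i j')
    (hgB : ∀ i, ∀ j ∈ J, j < i → g i j ∈ B j) :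
    ∃ h : L → T, StrictMono h := by
  obtain ⟨e, he, heJ⟩ := exEnum H J hJ
  exact narrowChain H hT (fun j => B (e j)) (fun j => hB _) (fun i j => g (e i) (e j))
    (fun i j j' hj hj' => hg _ _ (heJ j) _ (heJ j') (he hj) (he hj'))
    (fun i j hji => hgB _ _ (heJ j) (he hji))

end chain

end Pool.Agent.Helper599
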